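import Mathlib

/-!
# Chains of points of a finite net along a preconnected set
-/

set_option autoImplicit false

open Set Filter Topology Metric

namespace Pool.Agent.H572.WL

/-- A property with levels which passes from a point of the net to its neighbours holds at all points of the net near a
preconnected set. -/
theorem chain {S : Set ℂ} (hS : IsPreconnected S) (V : Finset ℂ) {ρ : ℝ} (hρ : 0 < ρ)
    (hcov : ∀ z ∈ S, ∃ q ∈ V, ‖z - q‖ < ρ)
    (P : ℂ → ℕ → Prop)
    (hstep : ∀ q ∈ V, ∀ q' ∈ V, ‖q' - q‖ ≤ 3 * ρ → ∀ n, P q n → P q' (n + 1))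
    (hmono : ∀ q ∈ V, ∀ n, P q n → P q (n + 1))
    {q₀ z₀ : ℂ} (hq₀ : q₀ ∈ V) (hz₀ : z₀ ∈ S) (h0 : ‖z₀ - q₀‖ < ρ) (hP : P q₀ 0)
    {q z : ℂ} (hq : q ∈ V) (hz : z ∈ S) (hqz : ‖z - q‖ < ρ) : P q V.card := by
  classical
  -- the graph on the net
  let G : SimpleGraph V := SimpleGraph.fromRel fun a b => ‖(b : ℂ) - a‖ ≤ 3 * ρ
  have hadj : ∀ a b : V, ‖(b : ℂ) - a‖ ≤ 3 * ρ → G.Reachable a b := by
    intro a b h
    by_cases hab : a = b
    · rw [hab]
    · refine SimpleGraph.Adj.reachable ?_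
      rw [SimpleGraph.fromRel_adj]
      exact ⟨hab, Or.inl h⟩
  -- reachability
  have hreach : ∀ x ∈ S, ∀ y ∈ S, ∀ a b : V, ‖x - a‖ < ρ → ‖y - b‖ < ρ → G.Reachable a b := by
    intro x hx y hy
    refine hS.induction₂ (fun x y => ∀ a b : V, ‖x - a‖ < ρ → ‖y - b‖ < ρ → G.Reachable a b) ?_ ?_ ?_ hx hy
    · intro x hx
      have : ∀ᶠ y in 𝓝[S] x, ‖y - x‖ < ρ := by
        refine eventually_nhdsWithin_of_eventually_nhds ?_
        have := Metric.ball_mem_nhds x hρ
        filter_upwards [this] with y hy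
        rwa [mem_ball, dist_eq_norm] at hy
      filter_upwards [this] with y hy a b ha hb
      apply hadj
      have e : (b : ℂ) - a = (x - a) + (y - x) - (y - b) := by ring
      rw [e]
      refine (norm_sub_le _ _).trans ?_
      have := norm_add_le (x - (a : ℂ)) (y - x)
      linarith
    · intro x y w _ hy _ hxy hyw a b ha hb
      obtain ⟨c, hc, hyc⟩ := hcov y hy
      exact (hxy a ⟨c, hc⟩ ha hyc).trans (hyw ⟨c, hc⟩ b hyc hb)
    · intro x y _ _ hxy a b ha hb
      exact (hxy b a hb ha).symm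
  obtain ⟨p, hp⟩ := (hreach z₀ hz₀ z hz ⟨q₀, hq₀⟩ ⟨q, hq⟩ h0 hqz).exists_isPath
  have hlen : p.length < V.card := by
    have := hp.length_lt
    rwa [Fintype.card_coe] at this
  -- induction along a walk
  have hwalk : ∀ (a b : V) (w : G.Walk a b) (n : ℕ), P a n → P b (n + w.length) := by
    intro a b w
    induction w with
    | nil => intro n h; simpa using h
    | @cons u v w' h p ih =>
      intro n hn
      have hd : ‖(v : ℂ) - u‖ ≤ 3 * ρ := by
        rw [SimpleGraph.fromRel_adj] at h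
        rcases h.2 with h2 | h2
        · exact h2
        · rwa [norm_sub_rev]
      have := ih (n + 1) (hstep u u.2 v v.2 hd n hn)
      rw [SimpleGraph.Walk.length_cons, show n + (p.length + 1) = n + 1 + p.length by ring]
      exact this
  have h1 := hwalk _ _ p 0 hP
  rw [zero_add] at h1
  have h2 : ∀ k, P q (p.length + k) := by
    intro k
    induction k with
    | zero => exact h1
    | succ k ih => exact hmono q hq _ ih
  have h3 := h2 (V.card - p.length)
  rwa [Nat.add_sub_cancel' hlen.le] at h3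

/-- a finite net -/
theorem exists_net (R : ℝ) {ρ : ℝ} (hρ : 0 < ρ) : ∃ T : Finset ℂ, (∀ q ∈ T, ‖q‖ ≤ R) ∧
    ∀ z : ℂ, ‖z‖ ≤ R → ∃ q ∈ T, ‖z - q‖ < ρ := by
  obtain ⟨t, ht, h1, h2⟩ := (isCompact_closedBall (0 : ℂ) R).finite_cover_balls hρ
  refine ⟨h1.toFinset, fun q hq => ?_, fun z hz => ?_⟩
  · have := ht ((Set.Finite.mem_toFinset h1).1 hq)
    rwa [mem_closedBall, dist_zero_right] at this
  · have : z ∈ closedBall (0 : ℂ) R := by rwa [mem_closedBall, dist_zero_right]
    obtain ⟨q, hq, hzq⟩ := mem_iUnion₂.1 (h2 this)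
    refine ⟨q, (Set.Finite.mem_toFinset h1).2 hq, ?_⟩
    rwa [mem_ball, dist_eq_norm] at hzq

end Pool.Agent.H572.WL
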