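import Pool.Agent.H572.WL.Chain
import Pool.Agent.H487.GL.Tc
import Pool.Agent.H487.NZ.HBase
import Pool.Graph.R_seed8.TH979.TX.Circles

/-!
# Preconnected sets which avoid clusters of zeros
-/

set_option autoImplicit false

open Set Filter Topology Metric Complex
open scoped ComplexConjugate

namespace Pool.Agent.H572.WL

open H370 H370.Loc Pool.Agent.H487.NZ Pool.Agent.H487.GL Pool.Agent.H487.NB

/-- the step of the propagation of smallness -/
def Step (r B b' b : ℝ) : Prop := ∀ (h : ℂ → ℂ) (q : ℂ), (∀ z ∈ closedBall q (4 * r), DifferentiableAt ℂ h z) →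
  (∀ z ∈ closedBall q (4 * r), ‖h z‖ ≤ B) → (∀ z ∈ closedBall q r, ‖h z‖ ≤ b') → ∀ z ∈ closedBall q (2 * r), ‖h z‖ ≤ b

lemma exists_step {r B : ℝ} (hr : 0 < r) (hB : 0 < B) {b : ℝ} (hb : 0 < b) : ∃ b' : ℝ, 0 < b' ∧ b' ≤ b ∧ Step r B b' b := by
  obtain ⟨C, θ, hC, hθ0, hθ1, H⟩ := TH979.TX.t_circles (r1 := r) (r2 := 2 * r) (r3 := 4 * r) hr (by linarith) (by linarith)
    (M1 := 1) le_rfl
  have hBθ : 0 < C * B ^ θ := by positivity
  set b₁ : ℝ := (b / (C * B ^ θ)) ^ (1 / (1 - θ)) with hb₁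
  have hb₁0 : 0 < b₁ := by positivity
  refine ⟨min b (min B b₁), by positivity, min_le_left _ _, fun h q hd hhB hhb z hz => ?_⟩
  set b' : ℝ := min b (min B b₁) with hb'
  have hb'0 : 0 < b' := by positivity
  have h1 : b' ≤ B := (min_le_right _ _).trans (min_le_left _ _)
  have h2 : b' ≤ b₁ := (min_le_right _ _).trans (min_le_right _ _)
  have key := H (fun z => h z / b') q (B / b') (by rw [le_div_iff₀ hb'0]; linarith) (fun z hz => (hd z hz).div_const _)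
    (fun z hz => by
      refine (Complex.re_le_norm _).trans ?_
      rw [norm_div, Complex.norm_real, Real.norm_of_nonneg hb'0.le]
      exact div_le_div_of_nonneg_right (hhB z hz) hb'0.le)
    (fun z hz => by
      rw [norm_div, Complex.norm_real, Real.norm_of_nonneg hb'0.le, div_le_one hb'0]
      exact hhb z hz) z hz
  rw [norm_div, Complex.norm_real, Real.norm_of_nonneg hb'0.le, div_le_iff₀ hb'0] at key
  refine key.trans ?_
  rw [Real.div_rpow hB.le hb'0.le]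
  have h3 : b' = b' ^ θ * b' ^ (1 - θ) := by
    rw [← Real.rpow_add hb'0, add_sub_cancel, Real.rpow_one]
  have h4 : b' ^ (1 - θ) ≤ b / (C * B ^ θ) := by
    calc b' ^ (1 - θ) ≤ b₁ ^ (1 - θ) := Real.rpow_le_rpow hb'0.le h2 (by linarith)
      _ = b / (C * B ^ θ) := by
        rw [hb₁, ← Real.rpow_mul (by positivity), one_div_mul_cancel (by linarith), Real.rpow_one]
  have hpos : 0 < b' ^ θ := Real.rpow_pos_of_pos hb'0 _
  calc C * (B ^ θ / b' ^ θ) * b' = C * B ^ θ / b' ^ θ * (b' ^ θ * b' ^ (1 - θ)) := by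
        rw [← h3]; ring
    _ = C * B ^ θ * b' ^ (1 - θ) := by field_simp
    _ ≤ C * B ^ θ * (b / (C * B ^ θ)) := by gcongr
    _ = b := by field_simp

/-- the levels -/
lemma exists_levels {r B b : ℝ} (hr : 0 < r) (hB : 0 < B) (hb : 0 < b) : ∃ lv : ℕ → ℝ, lv 0 = b ∧ (∀ j, 0 < lv j) ∧
    (∀ j, lv (j + 1) ≤ lv j) ∧ ∀ j, Step r B (lv (j + 1)) (lv j) := by
  have h : ∀ x : {x : ℝ // 0 < x}, ∃ x' : {x : ℝ // 0 < x}, (x' : ℝ) ≤ x ∧ Step r B x' x := fun x => by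
    obtain ⟨b', h1, h2, h3⟩ := exists_step hr hB x.2
    exact ⟨⟨b', h1⟩, h2, h3⟩
  choose f hf1 hf2 using h
  let lv : ℕ → {x : ℝ // 0 < x} := fun n => Nat.rec ⟨b, hb⟩ (fun _ x => f x) n
  obtain ⟨L, hL⟩ : ∃ L : ℕ → ℝ, L = fun n => (lv n).1 := ⟨_, rfl⟩
  refine ⟨L, by rw [hL]; rfl, fun j => ?_, fun j => ?_, fun j => ?_⟩
  · rw [hL]; exact (lv j).2
  · rw [hL]; exact hf1 (lv j)
  · rw [hL]; exact hf2 (lv j)

lemma Pf_add (s t : Multiset ℂ) (z : ℂ) : Pf (s + t) z = Pf s z * Pf t z := by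
  simp [Pf]

/-- comparison along a short segment -/
lemma value_step {H : ℂ → ℂ} {q : ℂ} {r ℓ b : ℝ} (hH : AnalyticOnNhd ℂ H (closedBall q r))
    (h0 : ∀ z ∈ closedBall q r, H z ≠ 0) (hb : 0 ≤ b) (hℓ : 0 < ℓ)
    (hL : ∀ z ∈ closedBall q r, ‖logDeriv H z / ℓ - 1‖ ≤ b) {z : ℂ} (hz : z ∈ closedBall q r) :
    ‖H q‖ * Real.exp (ℓ * (z.re - q.re) - b * ℓ * r) ≤ ‖H z‖ ∧ ‖H z‖ ≤ ‖H q‖ * Real.exp (ℓ * (z.re - q.re) + b * ℓ * r) := by
  set E : ℂ → ℂ := fun w => Complex.exp (-(ℓ * (w - q))) with hE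
  have hEd : Differentiable ℂ E := by fun_prop
  have hEa : ∀ w, AnalyticAt ℂ E w := fun w => hEd.analyticAt w
  have hE0 : ∀ w, E w ≠ 0 := fun w => Complex.exp_ne_zero _
  have hld : ∀ w ∈ closedBall q r, logDeriv (fun w => H w * E w) w = logDeriv H w - ℓ := by
    intro w hw
    rw [logDeriv_mul w (h0 w hw) (hE0 w) (hH w hw).differentiableAt hEd.differentiableAt]
    have : logDeriv E w = -ℓ := by
      rw [logDeriv_apply]
      have h1 : HasDerivAt E (E w * (-ℓ)) w := by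
        have h2 : HasDerivAt (fun w : ℂ => -((ℓ : ℂ) * (w - q))) (-(ℓ : ℂ)) w := by
          have := (((hasDerivAt_id w).sub_const q).const_mul (ℓ : ℂ)).fun_neg
          simpa using this
        exact h2.cexp
      rw [h1.deriv, mul_div_cancel_left₀ _ (hE0 w)]
    rw [this]
    ring
  have hb2 : ∀ w ∈ closedBall q r, ‖logDeriv (fun w => H w * E w) w‖ ≤ b * ℓ := by
    intro w hw
    rw [hld w hw]
    have h1 := hL w hw
    have e : logDeriv H w - ℓ = (logDeriv H w / ℓ - 1) * ℓ := by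
      have : (ℓ : ℂ) ≠ 0 := by exact_mod_cast hℓ.ne'
      field_simp
    rw [e, norm_mul, Complex.norm_real, Real.norm_of_nonneg hℓ.le]
    gcongr
  have key := lower_of_logDeriv (g := fun w => H w * E w) (c := q) (r := r) (L := b * ℓ)
    (fun w hw => (hH w hw).mul (hEa w)) (fun w hw => mul_ne_zero (h0 w hw) (hE0 w)) hb2 (by positivity) hz
  have e1 : E q = 1 := by simp [hE]
  have e2 : ‖E z‖ = Real.exp (-(ℓ * (z.re - q.re))) := by
    simp only [hE]
    rw [Complex.norm_exp]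
    congr 1
    simp
  simp only [norm_mul, e1, mul_one, e2] at key
  have hp := Real.exp_pos (-(ℓ * (z.re - q.re)))
  constructor
  · have h1 := key.1
    rw [sub_eq_add_neg, Real.exp_add]
    calc ‖H q‖ * (Real.exp (ℓ * (z.re - q.re)) * Real.exp (-(b * ℓ * r)))
        = (‖H q‖ * Real.exp (-(b * ℓ * r))) * Real.exp (ℓ * (z.re - q.re)) := by ring
      _ ≤ (‖H z‖ * Real.exp (-(ℓ * (z.re - q.re)))) * Real.exp (ℓ * (z.re - q.re)) := by gcongr
      _ = ‖H z‖ * (Real.exp (-(ℓ * (z.re - q.re))) * Real.exp (ℓ * (z.re - q.re))) := by ring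
      _ = ‖H z‖ := by rw [← Real.exp_add]; simp
  · have h1 := key.2
    rw [Real.exp_add]
    calc ‖H z‖ = ‖H z‖ * (Real.exp (-(ℓ * (z.re - q.re))) * Real.exp (ℓ * (z.re - q.re))) := by
          rw [← Real.exp_add]; simp
      _ = (‖H z‖ * Real.exp (-(ℓ * (z.re - q.re)))) * Real.exp (ℓ * (z.re - q.re)) := by ring
      _ ≤ (‖H q‖ * Real.exp (b * ℓ * r)) * Real.exp (ℓ * (z.re - q.re)) := by gcongr
      _ = _ := by ring

/-- `p` is not crowded: at most `B` zeros of `X` (with multiplicity) at distance at most `ε` -/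
def Few (X : ℂ → ℂ) (ε B : ℝ) (p : ℂ) : Prop :=
  ∀ T : Finset ℂ, (∀ ρ ∈ T, X ρ = 0 ∧ ‖ρ - p‖ ≤ ε) → ∑ ρ ∈ T, (analyticOrderNatAt X ρ : ℝ) ≤ B

/-- the factorization near height `y` -/
structure Fct (X G : ℂ → ℂ) (s : Multiset ℂ) (a L ℓ y R : ℝ) : Prop where
  diff : Differentiable ℂ X
  an : AnalyticOnNhd ℂ G (closedBall (1 / 2 + (y : ℂ) * I) (R + 1))
  eq : ∀ z, X z = Pf s z * G z
  ne : ∀ z ∈ closedBall (1 / 2 + (y : ℂ) * I) (R + 1), G z ≠ 0
  card : (Multiset.card s : ℝ) ≤ L * ℓ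
  ld : ∀ z ∈ closedBall (1 / 2 + (y : ℂ) * I) (R + 1), ‖logDeriv G z‖ ≤ L * ℓ
  right : ∀ z : ℂ, 1 / 2 + a ≤ z.re → X z ≠ 0

/-- the zeros near a point which is not crowded -/
lemma Fct.few {X G : ℂ → ℂ} {s : Multiset ℂ} {a L ℓ y R : ℝ} (F : Fct X G s a L ℓ y R) {ε B : ℝ} {p : ℂ}
    (hε : ε ≤ 1) (hp : p ∈ closedBall (1 / 2 + (y : ℂ) * I) R) (h : Few X ε B p) :
    (Multiset.card (s.filter fun ρ => ‖ρ - p‖ ≤ ε) : ℝ) ≤ B := by
  classical
  set t : Multiset ℂ := s.filter fun ρ => ‖ρ - p‖ ≤ ε with ht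
  have h1 : Multiset.card t = ∑ z ∈ t.toFinset, t.count z := (Multiset.toFinset_sum_count_eq t).symm
  have hz0 : ∀ ρ ∈ s, X ρ = 0 := by
    intro ρ hρ
    rw [F.eq]
    have : Pf s ρ = 0 := by
      unfold Pf
      apply Multiset.prod_eq_zero
      rw [Multiset.mem_map]
      exact ⟨ρ, hρ, sub_self ρ⟩
    rw [this, zero_mul]
  have h2 := h t.toFinset (fun ρ hρ => by
    rw [Multiset.mem_toFinset, ht, Multiset.mem_filter] at hρ
    exact ⟨hz0 ρ hρ.1, hρ.2⟩)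
  refine le_trans ?_ h2
  rw [h1]
  push_cast
  refine Finset.sum_le_sum fun ρ hρ => ?_
  rw [Multiset.mem_toFinset, ht, Multiset.mem_filter] at hρ
  have hball : ρ ∈ closedBall (1 / 2 + (y : ℂ) * I) (R + 1) := by
    rw [mem_closedBall, dist_eq_norm] at hp ⊢
    calc ‖ρ - (1 / 2 + (y : ℂ) * I)‖ = ‖(ρ - p) + (p - (1 / 2 + (y : ℂ) * I))‖ := by ring_nf
      _ ≤ ‖ρ - p‖ + ‖p - (1 / 2 + (y : ℂ) * I)‖ := norm_add_le _ _
      _ ≤ R + 1 := by linarith [hρ.2]
  have htop : analyticOrderAt X ρ ≠ ⊤ := by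
    refine AnalyticOnNhd.analyticOrderAt_ne_top_of_isPreconnected (f := X) (U := univ)
      (fun z _ => F.diff.analyticAt z) isPreconnected_univ (mem_univ ((1 / 2 + a : ℝ) : ℂ)) (mem_univ ρ) ?_
    rw [(F.diff.analyticAt _).analyticOrderAt_eq_zero.mpr (F.right _ (by simp))]
    exact ENat.zero_ne_top
  have h3 := count_le_mult (F.diff.analyticAt ρ) htop (F.an ρ hball) F.eq
  have h4 : t.count ρ ≤ s.count ρ := Multiset.count_le_of_le _ (Multiset.filter_le _ _)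
  exact_mod_cast h4.trans h3

/-- existence of the factorization -/
theorem exists_fct (a K R : ℝ) : ∃ L : ℝ, 1 ≤ L ∧ ∀ (X : ℂ → ℂ) (M ℓ y : ℝ), Base X a K M ℓ y → 1 ≤ ℓ →
    ∃ (G : ℂ → ℂ) (s : Multiset ℂ), Fct X G s a L ℓ y R := by
  obtain ⟨R', hR'⟩ : ∃ R' : ℝ, R' = |R| := ⟨_, rfl⟩
  have hR0 : 0 ≤ R' := by rw [hR']; exact abs_nonneg _
  have hRR : R ≤ R' := by rw [hR']; exact le_abs_self _
  obtain ⟨U, hU⟩ : ∃ U : ℝ, U = |a| + 1 := ⟨_, rfl⟩
  have hU1 : 1 ≤ U := by rw [hU]; linarith [abs_nonneg a]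
  have haU : a + 1 ≤ U := by rw [hU]; linarith [le_abs_self a]
  obtain ⟨C, hC, H⟩ := tc (r := U + R' + 2) (r₁ := U + R' + 3) (R := U + R' + 4) (by linarith) (by linarith)
    (by linarith)
  set D₀ : ℝ := (2 * U + R' + 4) + |K| * (1 + 2 * (2 * U + R' + 4) ^ 2) with hD₀
  have hD₀1 : 1 ≤ D₀ := by
    have : 0 ≤ |K| * (1 + 2 * (2 * U + R' + 4) ^ 2) := by positivity
    linarith
  refine ⟨C * D₀, one_le_mul_of_one_le_of_one_le hC hD₀1, fun X M ℓ y B hℓ => ?_⟩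
  have hK := B.hK
  have hM := B.hM
  have hKK : |K| = K := abs_of_pos (by linarith)
  rw [hKK] at hD₀
  have hptc : ∀ z : ℂ, z ∈ closedBall (pt y U 0) (U + R' + 4) → |z.re - 1 / 2| ≤ 2 * U + R' + 4 ∧ |z.im - y| ≤ 2 * U + R' + 4 := by
    intro z hz
    rw [mem_closedBall, dist_eq_norm] at hz
    have h1 := (Complex.abs_re_le_norm _).trans hz
    have h2 := (Complex.abs_im_le_norm _).trans hz
    rw [Complex.sub_re, pt_re] at h1
    rw [Complex.sub_im, pt_im] at h2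
    rw [abs_le] at h1 h2 ⊢
    rw [abs_le]
    refine ⟨⟨by linarith [h1.1], by linarith [h1.2]⟩, ⟨by linarith [h2.1], by linarith [h2.2]⟩⟩
  have hD1 : 1 ≤ D₀ * ℓ := one_le_mul_of_one_le_of_one_le hD₀1 hℓ
  obtain ⟨s, g, k1, k2, k3, k4, k5, k6, k7⟩ := H (fun z => X z / M) (pt y U 0) (D₀ * ℓ) hD1
    (fun z _ => (B.diff.div_const _).analyticAt z) (fun z hz => by
      obtain ⟨h1, h2⟩ := hptc z hz
      have h3 := B.up (z.re - 1 / 2) (z.im - y)
      rw [← pt_eq] at h3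
      rw [norm_div, Complex.norm_real, Real.norm_of_nonneg hM.le, div_le_iff₀ hM, mul_comm]
      refine h3.trans (mul_le_mul_of_nonneg_left (Real.exp_le_exp.mpr ?_) hM.le)
      have h4 : max |z.re - 1 / 2| a ≤ 2 * U + R' + 4 := max_le h1 (by linarith)
      have h5 : (z.re - 1 / 2) ^ 2 ≤ (2 * U + R' + 4) ^ 2 := by
        rw [← sq_abs]; exact pow_le_pow_left₀ (abs_nonneg _) h1 2
      have h6 : (z.im - y) ^ 2 ≤ (2 * U + R' + 4) ^ 2 := by
        rw [← sq_abs]; exact pow_le_pow_left₀ (abs_nonneg _) h2 2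
      have h7 : K * (1 + (z.re - 1 / 2) ^ 2 + (z.im - y) ^ 2) ≤ K * (1 + 2 * (2 * U + R' + 4) ^ 2) * ℓ := by
        calc K * (1 + (z.re - 1 / 2) ^ 2 + (z.im - y) ^ 2) ≤ K * (1 + 2 * (2 * U + R' + 4) ^ 2) * 1 := by
              rw [mul_one]
              apply mul_le_mul_of_nonneg_left _ (by linarith)
              linarith
          _ ≤ _ := by gcongr
      calc ℓ * max |z.re - 1 / 2| a + K * (1 + (z.re - 1 / 2) ^ 2 + (z.im - y) ^ 2)
          ≤ ℓ * (2 * U + R' + 4) + K * (1 + 2 * (2 * U + R' + 4) ^ 2) * ℓ := by gcongr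
        _ = D₀ * ℓ := by rw [hD₀]; ring)
    (by
      have h3 := B.lo U 0 (by linarith)
      rw [norm_div, Complex.norm_real, Real.norm_of_nonneg hM.le, le_div_iff₀ hM, mul_comm]
      refine le_trans (mul_le_mul_of_nonneg_left (Real.exp_le_exp.mpr ?_) hM.le) h3
      have h5 : U ^ 2 ≤ (2 * U + R' + 4) ^ 2 := by
        exact pow_le_pow_left₀ (by linarith) (by linarith) 2
      have h7 : K * (1 + U ^ 2 + 0 ^ 2) ≤ K * (1 + 2 * (2 * U + R' + 4) ^ 2) * ℓ := by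
        calc K * (1 + U ^ 2 + 0 ^ 2) ≤ K * (1 + 2 * (2 * U + R' + 4) ^ 2) * 1 := by
              rw [mul_one]
              apply mul_le_mul_of_nonneg_left _ (by linarith)
              nlinarith
          _ ≤ _ := by gcongr
      have h8 : 0 ≤ ℓ * U := by positivity
      have h9 : 0 ≤ (2 * U + R' + 4) * ℓ := by positivity
      have e : D₀ * ℓ = (2 * U + R' + 4) * ℓ + K * (1 + 2 * (2 * U + R' + 4) ^ 2) * ℓ := by rw [hD₀]; ring
      rw [e]
      linarith)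
  have hsub : closedBall (1 / 2 + (y : ℂ) * I) (R + 1) ⊆ closedBall (pt y U 0) (U + R' + 2) := by
    intro z hz
    rw [mem_closedBall, dist_eq_norm] at hz ⊢
    have e : z - pt y U 0 = (z - (1 / 2 + (y : ℂ) * I)) - U := by unfold pt; push_cast; ring
    rw [e]
    refine (norm_sub_le _ _).trans ?_
    rw [Complex.norm_real, Real.norm_of_nonneg (by linarith)]
    linarith
  have hG : ∀ z, X z = Pf s z * ((M : ℂ) * g z) := by
    intro z
    have h1 := k3 z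
    have hM' : (M : ℂ) ≠ 0 := by exact_mod_cast hM.ne'
    rw [div_eq_iff hM'] at h1
    rw [h1]; ring
  refine ⟨fun z => (M : ℂ) * g z, s, B.diff, ?_, hG, ?_, ?_, ?_, fun z hz => B.ne hz⟩
  · intro z hz
    exact analyticAt_const.mul (k2 z (closedBall_subset_closedBall (by linarith) (hsub hz)))
  · intro z hz
    exact mul_ne_zero (by exact_mod_cast hM.ne') (k4 z (closedBall_subset_closedBall (by linarith) (hsub hz)))
  · linarith
  · intro z hz
    have h1 := k6 z (hsub hz)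
    have e : logDeriv (fun z => (M : ℂ) * g z) z = logDeriv g z := by
      rw [logDeriv_const_mul]
      exact_mod_cast hM.ne'
    rw [e]
    linarith

end Pool.Agent.H572.WL
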