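import Pool.Agent.H572.WL.Core

/-!
# The main argument
-/

set_option autoImplicit false

open Set Filter Topology Metric Complex
open scoped ComplexConjugate

namespace Pool.Agent.H572.WL

open H370 H370.Loc Pool.Agent.H487.NZ Pool.Agent.H487.GL Pool.Agent.H487.NB

lemma mem_near {p q z : ℂ} {r s t : ℝ} (h1 : ‖p - q‖ ≤ r) (h2 : ‖z - p‖ ≤ s) (h : r + s ≤ t) : ‖z - q‖ ≤ t := by
  have e : z - q = (z - p) + (p - q) := by ring
  rw [e]
  exact (norm_add_le _ _).trans (by linarith)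

lemma re_near {p q : ℂ} {r : ℝ} (h : ‖p - q‖ ≤ r) : |p.re - q.re| ≤ r := by
  rw [← Complex.sub_re]; exact (Complex.abs_re_le_norm _).trans h

lemma im_near {p q : ℂ} {r : ℝ} (h : ‖p - q‖ ≤ r) : |p.im - q.im| ≤ r := by
  rw [← Complex.sub_im]; exact (Complex.abs_im_le_norm _).trans h

/-- the number of elements near a finite set -/
lemma card_near (s : Multiset ℂ) (V : Finset ℂ) (r B : ℝ)
    (h : ∀ q ∈ V, (Multiset.card (s.filter fun ρ => ‖ρ - q‖ ≤ r) : ℝ) ≤ B) :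
    (Multiset.card (s.filter fun ρ => ∃ q ∈ V, ‖ρ - q‖ ≤ r) : ℝ) ≤ V.card * B := by
  classical
  induction V using Finset.induction_on with
  | empty => simp
  | insert q V hq ih =>
    have h1 := ih fun q' hq' => h q' (Finset.mem_insert_of_mem hq')
    have h2 := h q (Finset.mem_insert_self q V)
    have h3 : Multiset.card (s.filter fun ρ => ∃ q' ∈ insert q V, ‖ρ - q'‖ ≤ r) ≤
        Multiset.card (s.filter fun ρ => ‖ρ - q‖ ≤ r) + Multiset.card (s.filter fun ρ => ∃ q' ∈ V, ‖ρ - q'‖ ≤ r) := by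
      rw [← Multiset.card_add, Multiset.filter_add_filter, Multiset.card_add]
      have : (s.filter fun ρ => ∃ q' ∈ insert q V, ‖ρ - q'‖ ≤ r) = s.filter fun ρ => ‖ρ - q‖ ≤ r ∨ ∃ q' ∈ V, ‖ρ - q'‖ ≤ r := by
        apply Multiset.filter_congr
        intro ρ _
        constructor
        · rintro ⟨q', hq', hd⟩
          rw [Finset.mem_insert] at hq'
          rcases hq' with rfl | hq'
          · exact Or.inl hd
          · exact Or.inr ⟨q', hq', hd⟩
        · rintro (hd | ⟨q', hq', hd⟩)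
          · exact ⟨q, Finset.mem_insert_self q V, hd⟩
          · exact ⟨q', Finset.mem_insert_of_mem hq', hd⟩
      rw [this]
      exact Nat.le_add_right _ _
    have h4 : (Multiset.card (s.filter fun ρ => ∃ q' ∈ insert q V, ‖ρ - q'‖ ≤ r) : ℝ) ≤
        Multiset.card (s.filter fun ρ => ‖ρ - q‖ ≤ r) + Multiset.card (s.filter fun ρ => ∃ q' ∈ V, ‖ρ - q'‖ ≤ r) := by
      exact_mod_cast h3
    rw [Finset.card_insert_of_notMem hq]
    push_cast
    linarith

/-- facts on the vertices -/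
lemma vert {X G : ℂ → ℂ} {s W : Multiset ℂ} {a L ℓ y R ε : ℝ} (F : Fct X G s a L ℓ y R) (hε : 0 < ε) (hℓ : 0 < ℓ)
    (hWs : W ≤ s) {q : ℂ} (hq : closedBall q (ε / 4) ⊆ closedBall (1 / 2 + (y : ℂ) * I) (R + 1))
    (hW : ∀ ρ ∈ W, ε / 2 < ‖ρ - q‖) :
    (∀ z ∈ closedBall q (ε / 4), AnalyticAt ℂ (fun z => Pf W z * G z) z ∧ Pf W z * G z ≠ 0 ∧
      ‖logDeriv (fun z => Pf W z * G z) z / ℓ - 1‖ ≤ 4 * L / ε + L + 1) := by
  intro z hz
  have hzc := hq hz
  have hdist : ∀ ρ ∈ W, ε / 4 ≤ ‖z - ρ‖ := by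
    intro ρ hρ
    have h1 := hW ρ hρ
    rw [mem_closedBall, dist_eq_norm] at hz
    have e : ρ - q = (z - q) - (z - ρ) := by ring
    rw [e] at h1
    have h2 := norm_sub_le (z - q) (z - ρ)
    linarith
  have hPne : Pf W z ≠ 0 := Pf_ne_zero fun ρ hρ h => by
    have := hdist ρ hρ
    rw [h, sub_self, norm_zero] at this
    linarith
  have hGne := F.ne z hzc
  have hPan : AnalyticAt ℂ (Pf W) z := (Pf_diff W).analyticAt z
  have hGan := F.an z hzc
  refine ⟨hPan.mul hGan, mul_ne_zero hPne hGne, ?_⟩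
  have e1 : logDeriv (fun z => Pf W z * G z) z = logDeriv (Pf W) z + logDeriv G z :=
    logDeriv_mul z hPne hGne hPan.differentiableAt hGan.differentiableAt
  have h1 := Pf_logDeriv (s := W) (z := z) (δ := ε / 4) (by linarith) hdist
  have h2 := F.ld z hzc
  have h3 : (Multiset.card W : ℝ) ≤ L * ℓ := by
    have : Multiset.card W ≤ Multiset.card s := Multiset.card_le_card hWs
    exact le_trans (by exact_mod_cast this) F.card
  have h4 : ‖logDeriv (fun z => Pf W z * G z) z‖ ≤ (4 * L / ε + L) * ℓ := by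
    rw [e1]
    refine (norm_add_le _ _).trans ?_
    have h5 : (Multiset.card W : ℝ) / (ε / 4) ≤ 4 * L / ε * ℓ := by
      rw [div_le_iff₀ (by linarith)]
      calc (Multiset.card W : ℝ) ≤ L * ℓ := h3
        _ = 4 * L / ε * ℓ * (ε / 4) := by field_simp
    linarith
  refine (norm_sub_le _ _).trans ?_
  rw [norm_one, norm_div, Complex.norm_real, Real.norm_of_nonneg hℓ.le]
  have h5 : ‖logDeriv (fun z => Pf W z * G z) z‖ / ℓ ≤ 4 * L / ε + L := by
    rw [div_le_iff₀ hℓ]; exact h4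
  linarith

theorem core (a K R ε b E : ℝ) (hε : 0 < ε) (hε1 : ε ≤ 1) (hb : 0 < b) (hE : 0 < E) :
    ∃ δ ℓ₀ : ℝ, 0 < δ ∧ 1 ≤ ℓ₀ ∧ ∀ (X : ℂ → ℂ) (M ℓ y : ℝ), Base X a K M ℓ y → ℓ₀ ≤ ℓ →
      ∀ S : Set ℂ, S ⊆ closedBall (1 / 2 + (y : ℂ) * I) R → IsPreconnected S →
      (∀ p ∈ S, Few X ε (δ * ℓ) p) → ∀ z₀ ∈ S, 1 / 2 + a + ε ≤ z₀.re → ∀ z ∈ S,
      ∃ (H : ℂ → ℂ) (Z : Multiset ℂ), (∀ z, X z = Pf Z z * H z) ∧ AnalyticOnNhd ℂ H (closedBall z (ε / 24)) ∧
        (∀ w ∈ closedBall z (ε / 24), H w ≠ 0) ∧ (∀ w ∈ closedBall z (ε / 24), ‖logDeriv H w / ℓ - 1‖ ≤ b) ∧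
        ‖H z‖ ≤ M * Real.exp (ℓ * (z.re - 1 / 2) + E * ℓ) ∧ (Multiset.card Z : ℝ) ≤ E * ℓ ∧
        (∀ ρ ∈ Z, ∀ w ∈ closedBall z (ε / 24), ‖w - ρ‖ ≤ 2 * |R| + 2) := by
  classical
  obtain ⟨R', hR'⟩ : ∃ R' : ℝ, R' = |R| := ⟨_, rfl⟩
  have hR0 : 0 ≤ R' := by rw [hR']; exact abs_nonneg _
  have hRR : R ≤ R' := by rw [hR']; exact le_abs_self _
  obtain ⟨ϱ, hϱ⟩ : ∃ ϱ : ℝ, ϱ = ε / 48 := ⟨_, rfl⟩
  have hϱ0 : 0 < ϱ := by rw [hϱ]; positivity
  obtain ⟨T, hT1, hT2⟩ := exists_net R' hϱ0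
  obtain ⟨N, hN⟩ : ∃ N : ℕ, N = T.card + 1 := ⟨_, rfl⟩
  have hN1 : (1 : ℝ) ≤ N := by rw [hN]; push_cast; linarith [(Nat.cast_nonneg T.card : (0:ℝ) ≤ T.card)]
  obtain ⟨L, hL1, HF⟩ := exists_fct a K R'
  obtain ⟨b', hb'⟩ : ∃ b' : ℝ, b' = min b (E / (N + 1)) := ⟨_, rfl⟩
  have hb'0 : 0 < b' := by rw [hb']; positivity
  have hb'b : b' ≤ b := by rw [hb']; exact min_le_left _ _
  have hb'E : b' * (N + 1) ≤ E := by
    have : b' ≤ E / (N + 1) := by rw [hb']; exact min_le_right _ _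
    rwa [le_div_iff₀ (by linarith)] at this
  obtain ⟨lv, lv0, lvpos, lvmono, lvstep⟩ := exists_levels (r := ε / 16) (B := 4 * L / ε + L + 1) (b := b')
    (by positivity) (by positivity) hb'0
  obtain ⟨K₁, hK₁⟩ : ∃ K₁ : ℝ, K₁ = |K| * (2 * R' + 4) := ⟨_, rfl⟩
  obtain ⟨K₂, hK₂⟩ : ∃ K₂ : ℝ, K₂ = |K| * (1 + 2 * (R' + 1) ^ 2) := ⟨_, rfl⟩
  obtain ⟨lam, hlam⟩ : ∃ lam : ℝ, lam = 1 + |Real.log (ε / 2)| := ⟨_, rfl⟩
  have hlam1 : 1 ≤ lam := by rw [hlam]; linarith [abs_nonneg (Real.log (ε / 2))]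
  obtain ⟨δ, hδ⟩ : ∃ δ : ℝ, δ = min (ε * lv N / (4 * N)) (E / (4 * N * lam)) := ⟨_, rfl⟩
  have hlvN := lvpos N
  have hδ0 : 0 < δ := by rw [hδ]; positivity
  have hδ1 : N * δ ≤ ε * lv N / 4 := by
    have : δ ≤ ε * lv N / (4 * N) := by rw [hδ]; exact min_le_left _ _
    calc N * δ ≤ N * (ε * lv N / (4 * N)) := by gcongr
      _ = _ := by field_simp
  have hδ2 : N * δ * lam ≤ E / 4 := by
    have : δ ≤ E / (4 * N * lam) := by rw [hδ]; exact min_le_right _ _
    calc N * δ * lam ≤ N * (E / (4 * N * lam)) * lam := by gcongr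
      _ = _ := by field_simp
  have hδ3 : N * δ ≤ E / 4 := by
    refine le_trans ?_ hδ2
    exact le_mul_of_one_le_right (by positivity) hlam1
  refine ⟨δ, max 1 (max (2 * K₁ / lv N) (4 * K₂ / E)), hδ0, le_max_left _ _,
    fun X M ℓ y B hℓ S hSR hSc hfew z₀ hz₀ hz₀a z hz => ?_⟩
  have hℓ1 : 1 ≤ ℓ := (le_max_left _ _).trans hℓ
  have hℓ0 : 0 < ℓ := by linarith
  have hℓ2 : 2 * K₁ ≤ lv N * ℓ := by
    have : 2 * K₁ / lv N ≤ ℓ := ((le_max_left _ _).trans (le_max_right _ _)).trans hℓ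
    rw [div_le_iff₀ hlvN] at this
    linarith
  have hℓ3 : 4 * K₂ ≤ E * ℓ := by
    have : 4 * K₂ / E ≤ ℓ := ((le_max_right _ _).trans (le_max_right _ _)).trans hℓ
    rw [div_le_iff₀ hE] at this
    linarith
  have hK := B.hK
  have hM := B.hM
  have hKK : |K| = K := abs_of_pos (by linarith)
  rw [hKK] at hK₁ hK₂
  obtain ⟨G, s, F⟩ := HF X M ℓ y B hℓ1
  set c₀ : ℂ := 1 / 2 + (y : ℂ) * I with hc₀
  have hc₀re : c₀.re = 1 / 2 := by simp [hc₀]
  have hc₀im : c₀.im = y := by simp [hc₀]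
  set V : Finset ℂ := (T.image fun τ => c₀ + τ).filter (fun q => ∃ p ∈ S, ‖p - q‖ < ϱ) with hV
  have hVN : V.card ≤ N := by
    have h1 : V.card ≤ (T.image fun τ => c₀ + τ).card := Finset.card_filter_le _ _
    have h2 : (T.image fun τ => c₀ + τ).card ≤ T.card := Finset.card_image_le
    omega
  have hSc0 : ∀ p ∈ S, ‖p - c₀‖ ≤ R' := fun p hp => by
    have := hSR hp
    rw [mem_closedBall, dist_eq_norm] at this
    linarith
  have hcov : ∀ p ∈ S, ∃ q ∈ V, ‖p - q‖ < ϱ := by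
    intro p hp
    obtain ⟨τ, hτ, hpτ⟩ := hT2 (p - c₀) (hSc0 p hp)
    refine ⟨c₀ + τ, ?_, by rwa [← sub_sub]⟩
    rw [hV, Finset.mem_filter]
    exact ⟨Finset.mem_image_of_mem _ hτ, p, hp, by rwa [← sub_sub]⟩
  have htouch : ∀ q ∈ V, ∃ p ∈ S, ‖p - q‖ < ϱ := fun q hq => (Finset.mem_filter.1 hq).2
  have hqc0 : ∀ q ∈ V, ‖q - c₀‖ ≤ R' + ϱ := by
    intro q hq
    obtain ⟨p, hp, hpq⟩ := htouch q hq
    have e : q - c₀ = (p - c₀) - (p - q) := by ring
    rw [e]
    exact (norm_sub_le _ _).trans (by linarith [hSc0 p hp])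
  have hball : ∀ q ∈ V, closedBall q (ε / 4) ⊆ closedBall c₀ (R' + 1) := by
    intro q hq w hw
    rw [mem_closedBall, dist_eq_norm] at hw ⊢
    exact mem_near (hqc0 q hq) hw (by rw [hϱ]; linarith)
  -- the zeros near the vertices
  have hcnt : ∀ q ∈ V, (Multiset.card (s.filter fun ρ => ‖ρ - q‖ ≤ ε / 2) : ℝ) ≤ δ * ℓ := by
    intro q hq
    obtain ⟨p, hp, hpq⟩ := htouch q hq
    have h1 := F.few (ε := ε) (B := δ * ℓ) (p := p) hε1 (by
      rw [mem_closedBall, dist_eq_norm]; exact hSc0 p hp) (hfew p hp)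
    refine le_trans ?_ h1
    have h2 : (s.filter fun ρ => ‖ρ - q‖ ≤ ε / 2) ≤ s.filter fun ρ => ‖ρ - p‖ ≤ ε := by
      apply Multiset.monotone_filter_right
      intro ρ hρ
      have e : ρ - p = (ρ - q) - (p - q) := by ring
      rw [e]
      exact (norm_sub_le _ _).trans (by rw [hϱ] at hpq; linarith)
    exact_mod_cast Multiset.card_le_card h2
  set Z : Multiset ℂ := s.filter fun ρ => ∃ q ∈ V, ‖ρ - q‖ ≤ ε / 2 with hZ
  set W : Multiset ℂ := s.filter fun ρ => ¬ ∃ q ∈ V, ‖ρ - q‖ ≤ ε / 2 with hW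
  have hsZW : s = Z + W := (Multiset.filter_add_not _ s).symm
  have hZc : (Multiset.card Z : ℝ) ≤ N * δ * ℓ := by
    have h1 := card_near s V (ε / 2) (δ * ℓ) hcnt
    have h2 : (V.card : ℝ) ≤ N := by exact_mod_cast hVN
    calc (Multiset.card Z : ℝ) ≤ V.card * (δ * ℓ) := h1
      _ ≤ N * (δ * ℓ) := by gcongr
      _ = _ := by ring
  have hWd : ∀ q ∈ V, ∀ ρ ∈ W, ε / 2 < ‖ρ - q‖ := by
    intro q hq ρ hρ
    rw [hW, Multiset.mem_filter] at hρ
    by_contra hc
    push Not at hc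
    exact hρ.2 ⟨q, hq, hc⟩
  set H : ℂ → ℂ := fun z => Pf W z * G z with hH
  have hXeq : ∀ z, X z = Pf Z z * H z := by
    intro z
    rw [F.eq z]
    have : Pf s z = Pf Z z * Pf W z := by rw [← Pf_add, ← hsZW]
    rw [this]
    simp only [hH]
    ring
  have hvert : ∀ q ∈ V, ∀ w ∈ closedBall q (ε / 4), AnalyticAt ℂ H w ∧ H w ≠ 0 ∧
      ‖logDeriv H w / ℓ - 1‖ ≤ 4 * L / ε + L + 1 := fun q hq =>
    vert F hε hℓ0 (Multiset.filter_le _ _) (hball q hq) (hWd q hq)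
  have hVdiff : ∀ q ∈ V, ∀ w ∈ closedBall q (ε / 4), DifferentiableAt ℂ (fun w => logDeriv H w / ℓ - 1) w := by
    intro q hq w hw
    obtain ⟨h1, h2, _⟩ := hvert q hq w hw
    have h3 : DifferentiableAt ℂ (logDeriv H) w := (h1.deriv.div h1 h2).differentiableAt
    exact (h3.div_const _).sub_const _
  -- the start
  obtain ⟨q₀, hq₀, hzq₀⟩ := hcov z₀ hz₀
  have hstart : ∀ w ∈ closedBall q₀ (ε / 16), ‖logDeriv H w / ℓ - 1‖ ≤ lv N := by
    intro w hw
    have hw4 : w ∈ closedBall q₀ (ε / 4) := closedBall_subset_closedBall (by linarith) hw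
    obtain ⟨h1, h2, _⟩ := hvert q₀ hq₀ w hw4
    have hwc := hball q₀ hq₀ hw4
    rw [mem_closedBall, dist_eq_norm] at hw hwc
    have hwre : 1 / 2 + a + ε / 2 ≤ w.re := by
      have i1 := abs_le.1 (re_near hw)
      have i2 := abs_le.1 (re_near hzq₀.le)
      rw [hϱ] at i2
      linarith [i1.1, i2.2]
    have hXne : X w ≠ 0 := B.ne (by linarith)
    have hPne : Pf Z w ≠ 0 := by
      intro h
      rw [hXeq w, h, zero_mul] at hXne
      exact hXne rfl
    have e1 : logDeriv X w = logDeriv (Pf Z) w + logDeriv H w := by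
      have : X = fun w => Pf Z w * H w := funext hXeq
      rw [this]
      exact logDeriv_mul w hPne h2 (Pf_diff Z).differentiableAt h1.differentiableAt
    have h3 := B.lg w (by linarith)
    have h4 : ‖logDeriv (Pf Z) w‖ ≤ (Multiset.card Z : ℝ) / (ε / 2) := by
      apply Pf_logDeriv (by linarith)
      intro ρ hρ
      have hρs : ρ ∈ s := by
        rw [hZ, Multiset.mem_filter] at hρ
        exact hρ.1
      have hρ0 : X ρ = 0 := by
        rw [F.eq]
        have : Pf s ρ = 0 := by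
          unfold Pf
          apply Multiset.prod_eq_zero
          rw [Multiset.mem_map]
          exact ⟨ρ, hρs, sub_self ρ⟩
        rw [this, zero_mul]
      have hρre : ρ.re < 1 / 2 + a := by
        by_contra hc
        push Not at hc
        exact F.right ρ hc hρ0
      have := Complex.re_le_norm (w - ρ)
      rw [Complex.sub_re] at this
      linarith
    have h5 : ‖logDeriv X w - ℓ‖ ≤ K₁ := by
      refine h3.trans ?_
      rw [hK₁]
      have i1 := re_near hwc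
      have i2 := im_near hwc
      rw [hc₀re] at i1
      rw [hc₀im] at i2
      have i3 : |w.re| ≤ R' + 1 + 1 / 2 := by
        rw [abs_le] at i1 ⊢
        constructor <;> linarith [i1.1, i1.2]
      apply mul_le_mul_of_nonneg_left _ (by linarith)
      linarith
    have h6 : ‖logDeriv H w - ℓ‖ ≤ lv N * ℓ := by
      have e : logDeriv H w - ℓ = (logDeriv X w - ℓ) - logDeriv (Pf Z) w := by rw [e1]; ring
      rw [e]
      refine (norm_sub_le _ _).trans ?_
      have h7 : (Multiset.card Z : ℝ) / (ε / 2) ≤ lv N * ℓ / 2 := by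
        rw [div_le_iff₀ (by linarith)]
        calc (Multiset.card Z : ℝ) ≤ N * δ * ℓ := hZc
          _ ≤ ε * lv N / 4 * ℓ := by gcongr
          _ = _ := by ring
      linarith
    have e2 : logDeriv H w / ℓ - 1 = (logDeriv H w - ℓ) / ℓ := by
      have : (ℓ : ℂ) ≠ 0 := by exact_mod_cast hℓ0.ne'
      field_simp
    rw [e2, norm_div, Complex.norm_real, Real.norm_of_nonneg hℓ0.le, div_le_iff₀ hℓ0]
    exact h6
  have lvle : ∀ i j : ℕ, lv (i + j) ≤ lv i := by
    intro i j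
    induction j with
    | zero => exact le_rfl
    | succ j ih => exact (lvmono (i + j)).trans ih
  have lvb : ∀ i, lv i ≤ b' := fun i => by
    have := lvle 0 i
    rwa [zero_add, lv0] at this
  -- the chain
  obtain ⟨P, hP⟩ : ∃ P : ℂ → ℕ → Prop, P = fun q n => n ≤ N → (∀ w ∈ closedBall q (ε / 16), ‖logDeriv H w / ℓ - 1‖ ≤ lv (N - n)) ∧
      ‖H q‖ ≤ ‖H q₀‖ * Real.exp (ℓ * (q.re - q₀.re) + n * (b' * ℓ * (ε / 16))) := ⟨_, rfl⟩
  obtain ⟨q, hq, hzq⟩ := hcov z hz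
  have hchain : P q V.card := by
    apply chain hSc V hϱ0 hcov P _ _ hq₀ hz₀ hzq₀ _ hq hz hzq
    · -- step
      intro q₁ hq₁ q₂ hq₂ hd n hn
      rw [hP] at hn ⊢
      intro hnN
      obtain ⟨g1, g2⟩ := hn (by omega)
      have hNn : N - n = (N - (n + 1)) + 1 := by omega
      rw [hNn] at g1
      have hd' : ‖q₂ - q₁‖ ≤ ε / 16 := by rw [hϱ] at hd; linarith
      have h4 : closedBall q₁ (4 * (ε / 16)) = closedBall q₁ (ε / 4) := by congr 1; ring
      have g3 := lvstep (N - (n + 1)) (fun w => logDeriv H w / ℓ - 1) q₁ (by rw [h4]; exact hVdiff q₁ hq₁)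
        (by rw [h4]; exact fun w hw => (hvert q₁ hq₁ w hw).2.2) g1
      refine ⟨fun w hw => g3 w ?_, ?_⟩
      · rw [mem_closedBall, dist_eq_norm] at hw ⊢
        exact mem_near hd' hw (by linarith)
      · have g4 := (value_step (H := H) (q := q₁) (r := ε / 16) (ℓ := ℓ) (b := b')
          (fun w hw => (hvert q₁ hq₁ w (closedBall_subset_closedBall (by linarith) hw)).1)
          (fun w hw => (hvert q₁ hq₁ w (closedBall_subset_closedBall (by linarith) hw)).2.1) hb'0.le hℓ0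
          (fun w hw => (g1 w hw).trans (lvb _)) (z := q₂) (by rwa [mem_closedBall, dist_eq_norm])).2
        refine g4.trans ?_
        calc ‖H q₁‖ * Real.exp (ℓ * (q₂.re - q₁.re) + b' * ℓ * (ε / 16))
            ≤ (‖H q₀‖ * Real.exp (ℓ * (q₁.re - q₀.re) + n * (b' * ℓ * (ε / 16)))) *
              Real.exp (ℓ * (q₂.re - q₁.re) + b' * ℓ * (ε / 16)) := by gcongr
          _ = ‖H q₀‖ * Real.exp ((ℓ * (q₁.re - q₀.re) + n * (b' * ℓ * (ε / 16))) +
              (ℓ * (q₂.re - q₁.re) + b' * ℓ * (ε / 16))) := by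
                rw [Real.exp_add (ℓ * (q₁.re - q₀.re) + n * (b' * ℓ * (ε / 16)))]; ring
          _ = _ := by congr 2; push_cast; ring
    · -- monotone
      intro q₁ hq₁ n hn
      rw [hP] at hn ⊢
      intro hnN
      obtain ⟨g1, g2⟩ := hn (by omega)
      have hNn : N - n = (N - (n + 1)) + 1 := by omega
      rw [hNn] at g1
      refine ⟨fun w hw => (g1 w hw).trans (lvmono _), g2.trans ?_⟩
      gcongr
      push_cast
      linarith
    · rw [hP]
      intro _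
      refine ⟨by rw [Nat.sub_zero]; exact hstart, ?_⟩
      simp
  rw [hP] at hchain
  obtain ⟨g1, g2⟩ := hchain hVN
  have g1' : ∀ w ∈ closedBall q (ε / 16), ‖logDeriv H w / ℓ - 1‖ ≤ b' := fun w hw => (g1 w hw).trans (lvb _)
  have hzq' : z ∈ closedBall q (ε / 16) := by
    rw [mem_closedBall, dist_eq_norm]
    rw [hϱ] at hzq
    linarith
  have hsub : closedBall z (ε / 24) ⊆ closedBall q (ε / 16) := by
    intro w hw
    rw [mem_closedBall, dist_eq_norm] at hw ⊢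
    exact mem_near hzq.le hw (by rw [hϱ]; linarith)
  have hsub4 : closedBall q (ε / 16) ⊆ closedBall q (ε / 4) := closedBall_subset_closedBall (by linarith)
  refine ⟨H, Z, hXeq, fun w hw => (hvert q hq w (hsub4 (hsub hw))).1, fun w hw => (hvert q hq w (hsub4 (hsub hw))).2.1,
    fun w hw => (g1' w (hsub hw)).trans hb'b, ?_, ?_, ?_⟩
  · -- the value
    have g3 := (value_step (H := H) (q := q) (r := ε / 16) (ℓ := ℓ) (b := b')
      (fun w hw => (hvert q hq w (hsub4 hw)).1) (fun w hw => (hvert q hq w (hsub4 hw)).2.1) hb'0.le hℓ0 g1' hzq').2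
    -- the value at the start
    have hq₀re : 1 / 2 + a ≤ q₀.re := by
      have i2 := abs_le.1 (re_near hzq₀.le)
      rw [hϱ] at i2
      linarith [i2.2]
    have hq₀c := hqc0 q₀ hq₀
    have hX0 : ‖X q₀‖ ≤ M * Real.exp (ℓ * (q₀.re - 1 / 2) + K₂) := by
      have h1 := B.up (q₀.re - 1 / 2) (q₀.im - y)
      rw [← pt_eq] at h1
      have ha := B.ha
      rw [abs_of_nonneg (by linarith : 0 ≤ q₀.re - 1 / 2), max_eq_left (by linarith)] at h1
      refine h1.trans (mul_le_mul_of_nonneg_left (Real.exp_le_exp.mpr ?_) hM.le)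
      have i1 := re_near hq₀c
      have i2 := im_near hq₀c
      rw [hc₀re] at i1
      rw [hc₀im] at i2
      have j1 : (q₀.re - 1 / 2) ^ 2 ≤ (R' + 1) ^ 2 := by
        rw [← sq_abs]; exact pow_le_pow_left₀ (abs_nonneg _) (i1.trans (by rw [hϱ]; linarith)) 2
      have j2 : (q₀.im - y) ^ 2 ≤ (R' + 1) ^ 2 := by
        rw [← sq_abs]; exact pow_le_pow_left₀ (abs_nonneg _) (i2.trans (by rw [hϱ]; linarith)) 2
      have j3 : K * (1 + (q₀.re - 1 / 2) ^ 2 + (q₀.im - y) ^ 2) ≤ K₂ := by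
        rw [hK₂]
        apply mul_le_mul_of_nonneg_left _ (by linarith)
        linarith
      linarith
    have hP0 : Real.exp (-(E / 4 * ℓ)) ≤ ‖Pf Z q₀‖ := by
      have hdist : ∀ ρ ∈ Z, ε / 2 ≤ ‖q₀ - ρ‖ := by
        intro ρ hρ
        have hρs : ρ ∈ s := by
          rw [hZ, Multiset.mem_filter] at hρ
          exact hρ.1
        have hρ0 : X ρ = 0 := by
          rw [F.eq]
          have : Pf s ρ = 0 := by
            unfold Pf
            apply Multiset.prod_eq_zero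
            rw [Multiset.mem_map]
            exact ⟨ρ, hρs, sub_self ρ⟩
          rw [this, zero_mul]
        have hρre : ρ.re < 1 / 2 + a := by
          by_contra hc
          push Not at hc
          exact F.right ρ hc hρ0
        have i2 := abs_le.1 (re_near hzq₀.le)
        rw [hϱ] at i2
        have := Complex.re_le_norm (q₀ - ρ)
        rw [Complex.sub_re] at this
        linarith [i2.2]
      refine le_trans ?_ ((exp_le_pow (x := ε / 2) (by linarith) (Multiset.card Z) hZc).trans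
        (Pf_norm_ge (by linarith) hdist))
      apply Real.exp_le_exp.mpr
      have : N * δ * ℓ * |Real.log (ε / 2)| ≤ E / 4 * ℓ := by
        calc N * δ * ℓ * |Real.log (ε / 2)| ≤ N * δ * ℓ * lam := by
              gcongr
              rw [hlam]; linarith
          _ = N * δ * lam * ℓ := by ring
          _ ≤ _ := by gcongr
      linarith
    have hH0 : ‖H q₀‖ ≤ M * Real.exp (ℓ * (q₀.re - 1 / 2) + K₂ + E / 4 * ℓ) := by
      have e : ‖X q₀‖ = ‖Pf Z q₀‖ * ‖H q₀‖ := by rw [hXeq q₀, norm_mul]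
      have h1 : Real.exp (-(E / 4 * ℓ)) * ‖H q₀‖ ≤ M * Real.exp (ℓ * (q₀.re - 1 / 2) + K₂) := by
        calc Real.exp (-(E / 4 * ℓ)) * ‖H q₀‖ ≤ ‖Pf Z q₀‖ * ‖H q₀‖ := by gcongr
          _ = ‖X q₀‖ := e.symm
          _ ≤ _ := hX0
      rw [Real.exp_add _ (E / 4 * ℓ)]
      have e2 : Real.exp (-(E / 4 * ℓ)) * Real.exp (E / 4 * ℓ) = 1 := by rw [← Real.exp_add]; simp
      calc ‖H q₀‖ = (Real.exp (-(E / 4 * ℓ)) * ‖H q₀‖) * Real.exp (E / 4 * ℓ) := by
            rw [mul_right_comm, e2, one_mul]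
        _ ≤ (M * Real.exp (ℓ * (q₀.re - 1 / 2) + K₂)) * Real.exp (E / 4 * ℓ) := by gcongr
        _ = _ := by ring
    have hexp3 : ∀ x y w : ℝ, (M * Real.exp x * Real.exp y) * Real.exp w = M * Real.exp (x + y + w) := by
      intro x y w
      rw [Real.exp_add, Real.exp_add]; ring
    refine g3.trans ?_
    calc ‖H q‖ * Real.exp (ℓ * (z.re - q.re) + b' * ℓ * (ε / 16))
        ≤ ((M * Real.exp (ℓ * (q₀.re - 1 / 2) + K₂ + E / 4 * ℓ)) * Real.exp (ℓ * (q.re - q₀.re) +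
            V.card * (b' * ℓ * (ε / 16)))) * Real.exp (ℓ * (z.re - q.re) + b' * ℓ * (ε / 16)) := by
          refine mul_le_mul_of_nonneg_right (g2.trans ?_) (Real.exp_pos _).le
          gcongr
      _ = M * Real.exp ((ℓ * (q₀.re - 1 / 2) + K₂ + E / 4 * ℓ) + (ℓ * (q.re - q₀.re) + V.card * (b' * ℓ * (ε / 16))) +
            (ℓ * (z.re - q.re) + b' * ℓ * (ε / 16))) := by
          exact hexp3 _ _ _
      _ ≤ M * Real.exp (ℓ * (z.re - 1 / 2) + E * ℓ) := by
          refine mul_le_mul_of_nonneg_left (Real.exp_le_exp.mpr ?_) hM.le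
          have h2 : (V.card : ℝ) ≤ N := by exact_mod_cast hVN
          have h3 : V.card * (b' * ℓ * (ε / 16)) + b' * ℓ * (ε / 16) ≤ E / 16 * ℓ := by
            calc V.card * (b' * ℓ * (ε / 16)) + b' * ℓ * (ε / 16) = (V.card + 1) * b' * ℓ * (ε / 16) := by ring
              _ ≤ (N + 1) * b' * ℓ * (1 / 16) := by gcongr
              _ = (b' * (N + 1)) * ℓ * (1 / 16) := by ring
              _ ≤ E * ℓ * (1 / 16) := by gcongr
              _ = _ := by ring
          have h4 : 0 ≤ E * ℓ := by positivity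
          linarith
  · refine hZc.trans ?_
    have : 0 ≤ E * ℓ := by positivity
    calc N * δ * ℓ ≤ E / 4 * ℓ := by gcongr
      _ ≤ E * ℓ := by linarith
  · intro ρ hρ w hw
    rw [hZ, Multiset.mem_filter] at hρ
    obtain ⟨-, q₁, hq₁, hρq⟩ := hρ
    rw [mem_closedBall, dist_eq_norm] at hw
    have h1 := hqc0 q₁ hq₁
    have h2 := hSc0 z hz
    have e : w - ρ = (w - z) + (z - c₀) - (ρ - q₁) - (q₁ - c₀) := by ring
    rw [e]
    have h3 := norm_sub_le ((w - z) + (z - c₀) - (ρ - q₁)) (q₁ - c₀)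
    have h4 := norm_sub_le ((w - z) + (z - c₀)) (ρ - q₁)
    have h5 := norm_add_le (w - z) (z - c₀)
    rw [← hR']
    rw [hϱ] at h1
    linarith

end Pool.Agent.H572.WL
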