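import Pool.Agent.H572.WL.Core2

/-!
# The critical line cannot be reached, and the size of the function
-/

set_option autoImplicit false

open Set Filter Topology Metric Complex
open scoped ComplexConjugate

namespace Pool.Agent.H572.WL

open H370 H370.Loc Pool.Agent.H487.NZ Pool.Agent.H487.GL Pool.Agent.H487.NB

lemma fe_norm {X : ℂ → ℂ} {a K M ℓ y : ℝ} (B : Base X a K M ℓ y) (s : ℂ) : ‖X (1 - conj s)‖ = ‖X s‖ := by
  obtain ⟨ε, hε, h⟩ := B.fe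
  rw [h s, norm_mul, hε, one_mul]
  simp

/-- the critical line cannot be reached -/
theorem no_cross (a K R ε : ℝ) (hε : 0 < ε) (hε1 : ε ≤ 1) :
    ∃ δ ℓ₀ : ℝ, 0 < δ ∧ 1 ≤ ℓ₀ ∧ ∀ (X : ℂ → ℂ) (M ℓ y : ℝ), Base X a K M ℓ y → ℓ₀ ≤ ℓ →
      ∀ S : Set ℂ, S ⊆ closedBall (1 / 2 + (y : ℂ) * I) R → IsPreconnected S →
      (∀ p ∈ S, Few X ε (δ * ℓ) p) → ∀ z₀ ∈ S, 1 / 2 + a + ε ≤ z₀.re → ∀ z ∈ S, z.re ≠ 1 / 2 := by
  obtain ⟨u₀, hu₀⟩ : ∃ u₀ : ℝ, u₀ = ε / 96 := ⟨_, rfl⟩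
  have hu₀0 : 0 < u₀ := by rw [hu₀]; positivity
  obtain ⟨D, hD⟩ : ∃ D : ℝ, D = 1 + |Real.log (u₀ / 2)| + |Real.log (2 * |R| + 2)| := ⟨_, rfl⟩
  have hD1 : 1 ≤ D := by
    rw [hD]; linarith [abs_nonneg (Real.log (u₀ / 2)), abs_nonneg (Real.log (2 * |R| + 2))]
  obtain ⟨E, hE⟩ : ∃ E : ℝ, E = ε / (400 * D) := ⟨_, rfl⟩
  have hE0 : 0 < E := by rw [hE]; positivity
  have hED : E * D = ε / 400 := by rw [hE]; field_simp
  obtain ⟨δ, ℓ₀, hδ, hℓ₀, H⟩ := core a K R ε (1 / 16) E hε hε1 (by norm_num) hE0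
  refine ⟨δ, ℓ₀, hδ, hℓ₀, fun X M ℓ y B hℓ S hSR hSc hfew z₀ hz₀ hz₀a z hz hzre => ?_⟩
  have hℓ0 : 0 < ℓ := by linarith
  obtain ⟨G, Z, h1, h2, h3, h4, h5, h6, h7⟩ := H X M ℓ y B hℓ S hSR hSc hfew z₀ hz₀ hz₀a z hz
  obtain ⟨q, hq1, hq2⟩ := cheb Z (z + u₀) (ρ₀ := u₀ / 2) (by linarith)
  obtain ⟨d, hd⟩ : ∃ d : ℝ, d = q.re - z.re := ⟨_, rfl⟩
  have hdre : u₀ / 2 ≤ d := by
    have := abs_le.1 (re_near hq1.le)
    rw [Complex.add_re, Complex.ofReal_re] at this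
    rw [hd]; linarith [this.1]
  have hqz : ‖q - z‖ ≤ 3 / 2 * u₀ := by
    have e : q - z = (q - (z + u₀)) + u₀ := by ring
    rw [e]
    refine (norm_add_le _ _).trans ?_
    rw [hq1, Complex.norm_real, Real.norm_of_nonneg hu₀0.le]
    linarith
  have hqs : 1 - conj q - z = -conj (q - z) := by
    apply Complex.ext
    · simp only [Complex.sub_re, Complex.one_re, Complex.conj_re, Complex.neg_re]
      linarith
    · simp only [Complex.sub_im, Complex.one_im, Complex.conj_im, Complex.neg_im]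
      ring
  have hq's : ‖1 - conj q - z‖ ≤ 3 / 2 * u₀ := by
    rw [hqs, norm_neg, Complex.norm_conj]; exact hqz
  have hmq : q ∈ closedBall z (ε / 24) := by
    rw [mem_closedBall, dist_eq_norm]
    rw [hu₀] at hqz
    linarith
  have hmq' : 1 - conj q ∈ closedBall z (ε / 24) := by
    rw [mem_closedBall, dist_eq_norm]
    rw [hu₀] at hq's
    linarith
  have v1 := (value_step h2 h3 (by norm_num) hℓ0 h4 hmq).1
  have v2 := (value_step h2 h3 (by norm_num) hℓ0 h4 hmq').2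
  have hre' : (1 - conj q).re - z.re = -d := by
    simp only [Complex.sub_re, Complex.one_re, Complex.conj_re]
    rw [hd]; linarith
  rw [← hd] at v1
  rw [hre'] at v2
  have hGz : 0 < ‖G z‖ := norm_pos_iff.2 (h3 z (mem_closedBall_self (by linarith)))
  have hXq : ‖X (1 - conj q)‖ = ‖X q‖ := fe_norm B q
  rw [h1, h1 q, norm_mul, norm_mul] at hXq
  have p1 : Real.exp (-(E * ℓ * |Real.log (u₀ / 2)|)) ≤ ‖Pf Z q‖ :=
    (exp_le_pow (x := u₀ / 2) (by linarith) (Multiset.card Z) h6).trans hq2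
  have p2 : ‖Pf Z (1 - conj q)‖ ≤ Real.exp (E * ℓ * |Real.log (2 * |R| + 2)|) :=
    (Pf_norm_le fun ρ hρ => h7 ρ hρ _ hmq').trans (pow_le_exp (by positivity) _ h6)
  have key : Real.exp (-(E * ℓ * |Real.log (u₀ / 2)|)) * (‖G z‖ * Real.exp (ℓ * d - 1 / 16 * ℓ * (ε / 24))) ≤
      Real.exp (E * ℓ * |Real.log (2 * |R| + 2)|) * (‖G z‖ * Real.exp (ℓ * -d + 1 / 16 * ℓ * (ε / 24))) := by
    calc Real.exp (-(E * ℓ * |Real.log (u₀ / 2)|)) * (‖G z‖ * Real.exp (ℓ * d - 1 / 16 * ℓ * (ε / 24)))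
        ≤ ‖Pf Z q‖ * ‖G q‖ := by gcongr
      _ = ‖Pf Z (1 - conj q)‖ * ‖G (1 - conj q)‖ := hXq.symm
      _ ≤ _ := by gcongr
  have key2 : Real.exp (-(E * ℓ * |Real.log (u₀ / 2)|) + (ℓ * d - 1 / 16 * ℓ * (ε / 24))) ≤
      Real.exp (E * ℓ * |Real.log (2 * |R| + 2)| + (ℓ * -d + 1 / 16 * ℓ * (ε / 24))) := by
    rw [Real.exp_add, Real.exp_add]
    have : ‖G z‖ * (Real.exp (-(E * ℓ * |Real.log (u₀ / 2)|)) * Real.exp (ℓ * d - 1 / 16 * ℓ * (ε / 24))) ≤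
        ‖G z‖ * (Real.exp (E * ℓ * |Real.log (2 * |R| + 2)|) * Real.exp (ℓ * -d + 1 / 16 * ℓ * (ε / 24))) := by
      linarith
    exact le_of_mul_le_mul_left this hGz
  rw [Real.exp_le_exp] at key2
  have hdℓ : u₀ / 2 * ℓ ≤ d * ℓ := by gcongr
  have hEDℓ : E * ℓ * |Real.log (u₀ / 2)| + E * ℓ * |Real.log (2 * |R| + 2)| ≤ ε / 400 * ℓ := by
    rw [← hED, hD]
    have : 0 ≤ E * ℓ := by positivity
    nlinarith
  have hεℓ : 0 < ε * ℓ := by positivity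
  rw [hu₀] at hdℓ
  linarith

/-- the size -/
theorem size (a K R ε η : ℝ) (hε : 0 < ε) (hε1 : ε ≤ 1) (hη : 0 < η) :
    ∃ δ ℓ₀ : ℝ, 0 < δ ∧ 1 ≤ ℓ₀ ∧ ∀ (X : ℂ → ℂ) (M ℓ y : ℝ), Base X a K M ℓ y → ℓ₀ ≤ ℓ →
      ∀ S : Set ℂ, S ⊆ closedBall (1 / 2 + (y : ℂ) * I) R → IsPreconnected S →
      (∀ p ∈ S, Few X ε (δ * ℓ) p) → ∀ z₀ ∈ S, 1 / 2 + a + ε ≤ z₀.re → ∀ z ∈ S,
      ‖X z‖ ≤ M * Real.exp (ℓ * (z.re - 1 / 2) + η * ℓ) := by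
  obtain ⟨D, hD⟩ : ∃ D : ℝ, D = 1 + |Real.log (2 * |R| + 2)| := ⟨_, rfl⟩
  have hD1 : 1 ≤ D := by
    rw [hD]; linarith [abs_nonneg (Real.log (2 * |R| + 2))]
  obtain ⟨E, hE⟩ : ∃ E : ℝ, E = η / D := ⟨_, rfl⟩
  have hE0 : 0 < E := by rw [hE]; positivity
  have hED : E * D = η := by rw [hE]; field_simp
  obtain ⟨δ, ℓ₀, hδ, hℓ₀, H⟩ := core a K R ε 1 E hε hε1 one_pos hE0
  refine ⟨δ, ℓ₀, hδ, hℓ₀, fun X M ℓ y B hℓ S hSR hSc hfew z₀ hz₀ hz₀a z hz => ?_⟩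
  have hℓ0 : 0 < ℓ := by linarith
  obtain ⟨G, Z, h1, h2, h3, h4, h5, h6, h7⟩ := H X M ℓ y B hℓ S hSR hSc hfew z₀ hz₀ hz₀a z hz
  have p2 : ‖Pf Z z‖ ≤ Real.exp (E * ℓ * |Real.log (2 * |R| + 2)|) :=
    (Pf_norm_le fun ρ hρ => h7 ρ hρ _ (mem_closedBall_self (by linarith))).trans (pow_le_exp (by positivity) _ h6)
  rw [h1, norm_mul]
  calc ‖Pf Z z‖ * ‖G z‖ ≤ Real.exp (E * ℓ * |Real.log (2 * |R| + 2)|) * (M * Real.exp (ℓ * (z.re - 1 / 2) + E * ℓ)) := by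
        gcongr
    _ = M * Real.exp (ℓ * (z.re - 1 / 2) + E * D * ℓ) := by
        rw [hD]
        have : ℓ * (z.re - 1 / 2) + E * (1 + |Real.log (2 * |R| + 2)|) * ℓ =
          E * ℓ * |Real.log (2 * |R| + 2)| + (ℓ * (z.re - 1 / 2) + E * ℓ) := by ring
        rw [this, Real.exp_add (E * ℓ * |Real.log (2 * |R| + 2)|)]; ring
    _ = _ := by rw [hED]

/-- **Main theorem**: sets without crowded points which reach the edge of the critical strip. -/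
theorem walls (a K R ε η : ℝ) (hε : 0 < ε) (hε1 : ε ≤ 1) (hη : 0 < η) :
    ∃ δ ℓ₀ : ℝ, 0 < δ ∧ 1 ≤ ℓ₀ ∧ ∀ (X : ℂ → ℂ) (M ℓ y : ℝ), Base X a K M ℓ y → ℓ₀ ≤ ℓ → ∀ σ : ℝ, 1 / 2 < σ →
      (∀ z : ℂ, σ < z.re → X z ≠ 0) →
      ∀ S : Set ℂ, S ⊆ closedBall (1 / 2 + (y : ℂ) * I) R → IsPreconnected S →
      (∀ p ∈ S, Few X ε (δ * ℓ) p) → (∃ z₁ ∈ S, σ ≤ z₁.re) → ∀ z ∈ S,
      1 / 2 < z.re ∧ ‖X z‖ ≤ M * Real.exp (ℓ * (z.re - 1 / 2) + η * ℓ) := by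
  obtain ⟨A, hA⟩ : ∃ A : ℝ, A = |a| + 1 := ⟨_, rfl⟩
  have hA1 : 1 ≤ A := by rw [hA]; linarith [abs_nonneg a]
  obtain ⟨δ₁, ℓ₁, hδ₁, hℓ₁, H1⟩ := no_cross a K (R + A) ε hε hε1
  obtain ⟨δ₂, ℓ₂, hδ₂, hℓ₂, H2⟩ := size a K (R + A) ε η hε hε1 hη
  refine ⟨min δ₁ δ₂, max ℓ₁ ℓ₂, lt_min hδ₁ hδ₂, le_max_of_le_left hℓ₁,
    fun X M ℓ y B hℓ σ hσ hzf S hSR hSc hfew hz₁ z hz => ?_⟩
  obtain ⟨z₁, hz₁S, hz₁re⟩ := hz₁
  have hl1 : ℓ₁ ≤ ℓ := (le_max_left _ _).trans hℓ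
  have hl2 : ℓ₂ ≤ ℓ := (le_max_right _ _).trans hℓ
  have hℓ0 : 0 < ℓ := by linarith
  obtain ⟨J, hJ⟩ : ∃ J : Set ℂ, J = (fun x : ℝ => z₁ + x) '' Icc 0 A := ⟨_, rfl⟩
  have hJc : IsPreconnected J := by
    rw [hJ]
    exact isPreconnected_Icc.image _ (Continuous.continuousOn (by fun_prop))
  have hz₁J : z₁ ∈ J := by rw [hJ]; exact ⟨0, ⟨le_rfl, by linarith⟩, by simp⟩
  have hend : z₁ + (A : ℂ) ∈ J := by rw [hJ]; exact ⟨A, ⟨by linarith, le_rfl⟩, rfl⟩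
  have hUc : IsPreconnected (S ∪ J) := hSc.union z₁ hz₁S hz₁J hJc
  have hUR : S ∪ J ⊆ closedBall (1 / 2 + (y : ℂ) * I) (R + A) := by
    rintro w (hw | hw)
    · exact closedBall_subset_closedBall (by linarith) (hSR hw)
    · rw [hJ] at hw
      obtain ⟨x, hx, rfl⟩ := hw
      have h1 := hSR hz₁S
      rw [mem_closedBall, dist_eq_norm] at h1 ⊢
      have e : (fun x : ℝ => z₁ + (x : ℂ)) x - (1 / 2 + (y : ℂ) * I) = (z₁ - (1 / 2 + (y : ℂ) * I)) + x := by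
        simp only; ring
      rw [e]
      refine (norm_add_le _ _).trans ?_
      rw [Complex.norm_real, Real.norm_of_nonneg hx.1]
      linarith [hx.2]
  have hUfew : ∀ B' : ℝ, min δ₁ δ₂ * ℓ ≤ B' → ∀ p ∈ S ∪ J, Few X ε B' p := by
    rintro B' hB' p (hp | hp) T hT
    · exact (hfew p hp T hT).trans hB'
    · rw [hJ] at hp
      obtain ⟨x, hx, rfl⟩ := hp
      refine (hfew z₁ hz₁S T fun ρ hρ => ?_).trans hB'
      obtain ⟨h1, h2⟩ := hT ρ hρ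
      refine ⟨h1, le_trans ?_ h2⟩
      have hρre : ρ.re ≤ z₁.re := by
        by_contra hc
        push Not at hc
        exact hzf ρ (by linarith) h1
      simp only
      rw [Complex.norm_eq_sqrt_sq_add_sq, Complex.norm_eq_sqrt_sq_add_sq]
      apply Real.sqrt_le_sqrt
      have h3 : (ρ - (z₁ + (x : ℂ))).re = (ρ - z₁).re - x := by simp; ring
      have h4 : (ρ - (z₁ + (x : ℂ))).im = (ρ - z₁).im := by simp
      have h5 : (ρ - z₁).re ≤ 0 := by rw [Complex.sub_re]; linarith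
      rw [h3, h4]
      have := hx.1
      nlinarith
  have hendre : 1 / 2 + a + ε ≤ (z₁ + (A : ℂ)).re := by
    rw [Complex.add_re, Complex.ofReal_re, hA]
    linarith [le_abs_self a]
  have hm1 : min δ₁ δ₂ * ℓ ≤ δ₁ * ℓ := by gcongr; exact min_le_left _ _
  have hm2 : min δ₁ δ₂ * ℓ ≤ δ₂ * ℓ := by gcongr; exact min_le_right _ _
  refine ⟨?_, H2 X M ℓ y B hl2 _ hUR hUc (hUfew _ hm2) _ (Or.inr hend) hendre z (Or.inl hz)⟩
  by_contra hc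
  push Not at hc
  have hcont : ContinuousOn (fun w : ℂ => w.re) S := Complex.continuous_re.continuousOn
  obtain ⟨p, hpS, hp⟩ := hSc.intermediate_value hz hz₁S hcont (show (1 / 2 : ℝ) ∈ Icc z.re z₁.re from ⟨hc, by linarith⟩)
  exact H1 X M ℓ y B hl1 _ hUR hUc (hUfew _ hm1) _ (Or.inr hend) hendre p (Or.inl hpS) hp

end Pool.Agent.H572.WL
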