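import Pool.Agent.H572.WL.Lind

/-!
# L-functions
-/

set_option autoImplicit false

open Set Filter Topology Metric Complex
open scoped ComplexConjugate

namespace Pool.Agent.H572.WL

open H370 H370.Loc Pool.Agent.H487.NZ Pool.Agent.H487.GL Pool.Agent.H487.NB H353.E H353.F

lemma lf_id' {m : ℕ} {N : ℝ} (hN : 1 ≤ N) {μ : Fin m → ℂ} (hμ : ∀ j, (μ j).re ≤ 1 / 2) (Λ : ℂ → ℂ) {s : ℂ} (hs : 1 / 2 ≤ s.re)
    (hne : ∀ j, s ≠ μ j) :
    (∏ j, (s - μ j)) * xi N Λ s * N = (2 * Real.pi) ^ m * (gaf N μ (s + 2) * Lf μ Λ s) := by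
  have hN0 : (N : ℂ) ≠ 0 := by
    have : (0:ℝ) < N := by linarith
    exact_mod_cast this.ne'
  have hpi : (Real.pi : ℂ) ≠ 0 := by exact_mod_cast Real.pi_ne_zero
  have hG : ∀ j, Gammaℝ (s - μ j) ≠ 0 := by
    intro j h0
    rw [Gammaℝ_eq_zero_iff] at h0
    obtain ⟨n, hn⟩ := h0
    have h1 : (s - μ j).re = -(2 * n) := by rw [hn]; simp
    rw [sub_re] at h1
    have h2 := hμ j
    have h3 : (0 : ℝ) ≤ n := Nat.cast_nonneg n
    have h4 : (n : ℝ) = 0 := by linarith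
    have h5 : n = 0 := by exact_mod_cast h4
    rw [h5] at hn
    apply hne j
    rw [← sub_eq_zero, hn]
    simp
  have h1 : ∀ j, Gammaℝ (s + 2 - μ j) = Gammaℝ (s - μ j) * ((s - μ j) / (2 * Real.pi)) := by
    intro j
    have e : s + 2 - μ j = (s - μ j) + 2 := by ring
    rw [e, Gammaℝ_add_two (sub_ne_zero.mpr (hne j))]
    field_simp
  have h2 : ∏ j, Gammaℝ (s + 2 - μ j) = (∏ j, Gammaℝ (s - μ j)) * ((∏ j, (s - μ j)) / (2 * Real.pi) ^ m) := by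
    rw [Finset.prod_congr rfl fun j _ => h1 j, Finset.prod_mul_distrib, Finset.prod_div_distrib, Finset.prod_const, Finset.card_univ,
      Fintype.card_fin]
  have h3 : (∏ j, Gammaℝ (s - μ j)) * ∏ j, (Gammaℝ (s - μ j))⁻¹ = 1 := by
    rw [← Finset.prod_mul_distrib]
    exact Finset.prod_eq_one fun j _ => mul_inv_cancel₀ (hG j)
  have h4 : (N : ℂ) ^ ((s + 2) / 2) = (N : ℂ) ^ (s / 2) * N := by
    have e : (s + 2) / 2 = s / 2 + 1 := by ring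
    rw [e, cpow_add _ _ hN0, cpow_one]
  unfold xi gaf Lf
  rw [h2, h4]
  have h5 : (2 * (Real.pi : ℂ)) ^ m ≠ 0 := pow_ne_zero _ (mul_ne_zero two_ne_zero hpi)
  have h6 : (2 * (Real.pi : ℂ)) ^ m * ((∏ j, (s - μ j)) / (2 * Real.pi) ^ m) = ∏ j, (s - μ j) := mul_div_cancel₀ _ h5
  linear_combination (-(N : ℂ) ^ (s / 2) * N * (∏ j, (s - μ j)) * Λ s) * h3 -
    (N : ℂ) ^ (s / 2) * N * (∏ j, Gammaℝ (s - μ j)) * Λ s * (∏ j, (Gammaℝ (s - μ j))⁻¹) * h6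

lemma lf_norm' {m : ℕ} {N : ℝ} (hN : 1 ≤ N) {μ : Fin m → ℂ} (hμ : ∀ j, (μ j).re ≤ 1 / 2) (Λ : ℂ → ℂ) {s : ℂ} (hs : 1 / 2 ≤ s.re)
    (hne : ∀ j, s ≠ μ j) :
    ‖∏ j, (s - μ j)‖ * ‖xi N Λ s‖ * N = (2 * Real.pi) ^ m * (‖gaf N μ (s + 2)‖ * ‖Lf μ Λ s‖) := by
  have h := congrArg norm (lf_id' hN hμ Λ hs hne)
  rw [norm_mul, norm_mul, norm_mul, norm_mul, norm_pow, norm_mul, Complex.norm_real, Complex.norm_real, Complex.norm_two,
    Real.norm_of_nonneg Real.pi_pos.le, Real.norm_of_nonneg (by linarith : 0 ≤ N)] at h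
  exact h

/-- the L-function and the completed L-function to the right of the critical line -/
theorem lf_size (m : ℕ) (hm : 1 ≤ m) {θ : ℝ} (hθ0 : 0 ≤ θ) (hθ1 : θ ≤ 1 / 2) (R : ℝ) : ∃ C : ℝ, 1 ≤ C ∧
    ∀ (N : ℝ) (μ : Fin m → ℂ) (α : Fin m → ℕ → ℂ) (ε : ℂ) (Λ : ℂ → ℂ), DatumT θ N μ α ε Λ → ∀ (y : ℝ) (s : ℂ),
      1 / 2 ≤ s.re → ‖s - (1 / 2 + (y : ℂ) * I)‖ ≤ R →
      ‖Lf μ Λ s‖ * (Mb N μ y * Real.exp (1 / 2 * Real.log (cond N μ y) * (s.re - 1 / 2))) ≤ C * ‖xi N Λ s‖ := by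
  obtain ⟨K, HK⟩ := datum_base m hm hθ0 hθ1
  obtain ⟨B₁, hB₁, HB⟩ := facts m hm hθ0 hθ1 (show (0 : ℝ) < 1 / 2 by norm_num)
  obtain ⟨R', hR'⟩ : ∃ R' : ℝ, R' = |R| := ⟨_, rfl⟩
  have hR0 : 0 ≤ R' := by rw [hR']; exact abs_nonneg _
  have hRR : R ≤ R' := by rw [hR']; exact le_abs_self _
  obtain ⟨C, hC⟩ : ∃ C : ℝ, C = (2 + R') ^ m * (B₁ * Real.exp (|K| * (1 + (R' + 2) ^ 2 + R' ^ 2))) := ⟨_, rfl⟩
  have hC1 : 1 ≤ C := by
    rw [hC]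
    have h1 : 1 ≤ (2 + R') ^ m := one_le_pow₀ (by linarith)
    have h2 : 1 ≤ Real.exp (|K| * (1 + (R' + 2) ^ 2 + R' ^ 2)) := Real.one_le_exp (by positivity)
    exact one_le_mul_of_one_le_of_one_le h1 (one_le_mul_of_one_le_of_one_le hB₁ h2)
  refine ⟨C, hC1, fun N μ α ε Λ d y s hs hsR => ?_⟩
  have B := HK N μ α ε Λ d y
  have hK := B.hK
  have hM := B.hM
  have hKK : |K| = K := abs_of_pos (by linarith)
  rw [hKK] at hC
  have hN := d.one_le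
  have hN0 : 0 < N := by linarith
  have hcond := cond_one hN μ y
  have hcond0 : 0 < cond N μ y := by linarith
  obtain ⟨ℓ, hℓ⟩ : ∃ ℓ : ℝ, ℓ = 1 / 2 * Real.log (cond N μ y) := ⟨_, rfl⟩
  obtain ⟨M, hMM⟩ : ∃ M : ℝ, M = Mb N μ y := ⟨_, rfl⟩
  rw [← hℓ, ← hMM] at B ⊢
  rw [← hMM] at hM
  have hcexp : cond N μ y = Real.exp (2 * ℓ) := by
    rw [hℓ, ← mul_assoc]; norm_num
    rw [Real.exp_log hcond0]
  by_cases hne : ∀ j, s ≠ μ j
  swap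
  · push Not at hne
    obtain ⟨j, hj⟩ := hne
    rw [lf_zero Λ hj, norm_zero, zero_mul]
    positivity
  have h1 := lf_norm' hN d.re_le Λ hs hne
  obtain ⟨u, hu⟩ : ∃ u : ℝ, u = s.re - 1 / 2 := ⟨_, rfl⟩
  obtain ⟨v, hv⟩ : ∃ v : ℝ, v = s.im - y := ⟨_, rfl⟩
  have hu0 : 0 ≤ u := by rw [hu]; linarith
  have huR : u ≤ R' := by
    have := (abs_le.1 (re_near hsR)).2
    simp at this
    rw [hu]; linarith
  have hvR : |v| ≤ R' := by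
    have := im_near hsR
    simp at this
    rw [hv]; linarith
  rw [← hu]
  -- the gamma factor at `s + 2`
  have hs2 : s + 2 = pt y (u + 2) v := by
    apply Complex.ext
    · rw [pt_re, hu]; simp; ring
    · rw [pt_im, hv]; simp
  have F := HB N μ α ε Λ d
  have g1 : ‖xi N Λ (s + 2)‖ ≤ B₁ * ‖gaf N μ (s + 2)‖ := F.near.hi (s + 2) (by
    simp
    linarith)
  have g2 := B.lo (u + 2) v (by linarith)
  rw [← hs2] at g2
  have g3 : M * Real.exp (ℓ * (u + 2)) ≤ B₁ * Real.exp (K * (1 + (R' + 2) ^ 2 + R' ^ 2)) * ‖gaf N μ (s + 2)‖ := by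
    have e1 : Real.exp (ℓ * (u + 2)) ≤ Real.exp (ℓ * (u + 2) - K * (1 + (u + 2) ^ 2 + v ^ 2)) *
        Real.exp (K * (1 + (R' + 2) ^ 2 + R' ^ 2)) := by
      rw [← Real.exp_add]
      apply Real.exp_le_exp.mpr
      have h5 : (u + 2) ^ 2 ≤ (R' + 2) ^ 2 := pow_le_pow_left₀ (by linarith) (by linarith) 2
      have h6 : v ^ 2 ≤ R' ^ 2 := by rw [← sq_abs]; exact pow_le_pow_left₀ (abs_nonneg _) hvR 2
      have : K * (1 + (u + 2) ^ 2 + v ^ 2) ≤ K * (1 + (R' + 2) ^ 2 + R' ^ 2) := by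
        apply mul_le_mul_of_nonneg_left _ (by linarith)
        linarith
      linarith
    calc M * Real.exp (ℓ * (u + 2)) ≤ M * (Real.exp (ℓ * (u + 2) - K * (1 + (u + 2) ^ 2 + v ^ 2)) *
        Real.exp (K * (1 + (R' + 2) ^ 2 + R' ^ 2))) := by gcongr
      _ = (M * Real.exp (ℓ * (u + 2) - K * (1 + (u + 2) ^ 2 + v ^ 2))) * Real.exp (K * (1 + (R' + 2) ^ 2 + R' ^ 2)) := by ring
      _ ≤ (B₁ * ‖gaf N μ (s + 2)‖) * Real.exp (K * (1 + (R' + 2) ^ 2 + R' ^ 2)) :=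
          mul_le_mul_of_nonneg_right (g2.trans g1) (Real.exp_pos _).le
      _ = _ := by ring
  -- the polynomial
  have h2 : ‖∏ j, (s - μ j)‖ ≤ (2 + R') ^ m * ∏ j, (1 + ‖(y : ℂ) * I - μ j‖) := by
    have e : ((2 : ℝ) + R') ^ m = ∏ _j : Fin m, (2 + R') := by rw [Finset.prod_const, Finset.card_univ, Fintype.card_fin]
    rw [norm_prod, e, ← Finset.prod_mul_distrib]
    refine Finset.prod_le_prod (fun j _ => norm_nonneg _) fun j _ => ?_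
    have e2 : s - μ j = (s - (1 / 2 + (y : ℂ) * I)) + 1 / 2 + (y * I - μ j) := by ring
    rw [e2]
    have h3 := norm_add_le ((s - (1 / 2 + (y : ℂ) * I)) + 1 / 2) (y * I - μ j)
    have h4 := norm_add_le (s - (1 / 2 + (y : ℂ) * I)) (1 / 2 : ℂ)
    have h5 : ‖(1 / 2 : ℂ)‖ = 1 / 2 := by norm_num
    have h6 := norm_nonneg ((y : ℂ) * I - μ j)
    rw [h5] at h4
    nlinarith
  have h3 : 1 ≤ (2 * Real.pi) ^ m := one_le_pow₀ (by linarith [Real.pi_gt_three])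
  have h4 : ‖gaf N μ (s + 2)‖ * ‖Lf μ Λ s‖ ≤ (2 + R') ^ m * (Real.exp (2 * ℓ) * ‖xi N Λ s‖) := by
    calc ‖gaf N μ (s + 2)‖ * ‖Lf μ Λ s‖ ≤ (2 * Real.pi) ^ m * (‖gaf N μ (s + 2)‖ * ‖Lf μ Λ s‖) :=
          le_mul_of_one_le_left (by positivity) h3
      _ = ‖∏ j, (s - μ j)‖ * ‖xi N Λ s‖ * N := h1.symm
      _ ≤ ((2 + R') ^ m * ∏ j, (1 + ‖(y : ℂ) * I - μ j‖)) * ‖xi N Λ s‖ * N := by gcongr
      _ = (2 + R') ^ m * (cond N μ y * ‖xi N Λ s‖) := by unfold Pool.Agent.H487.NB.cond; ring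
      _ = _ := by rw [hcexp]
  have h5 : Real.exp (2 * ℓ) * (‖Lf μ Λ s‖ * (M * Real.exp (ℓ * u))) ≤ Real.exp (2 * ℓ) * (C * ‖xi N Λ s‖) := by
    calc Real.exp (2 * ℓ) * (‖Lf μ Λ s‖ * (M * Real.exp (ℓ * u))) = (M * Real.exp (ℓ * (u + 2))) * ‖Lf μ Λ s‖ := by
          have : ℓ * (u + 2) = 2 * ℓ + ℓ * u := by ring
          rw [this, Real.exp_add]; ring
      _ ≤ (B₁ * Real.exp (K * (1 + (R' + 2) ^ 2 + R' ^ 2)) * ‖gaf N μ (s + 2)‖) * ‖Lf μ Λ s‖ := by gcongr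
      _ = (B₁ * Real.exp (K * (1 + (R' + 2) ^ 2 + R' ^ 2))) * (‖gaf N μ (s + 2)‖ * ‖Lf μ Λ s‖) := by ring
      _ ≤ (B₁ * Real.exp (K * (1 + (R' + 2) ^ 2 + R' ^ 2))) * ((2 + R') ^ m * (Real.exp (2 * ℓ) * ‖xi N Λ s‖)) := by gcongr
      _ = _ := by rw [hC]; ring
  exact le_of_mul_le_mul_left h5 (Real.exp_pos _)

lemma mult_xi {N : ℝ} (hN : 1 ≤ N) {Λ : ℂ → ℂ} (hΛ : Differentiable ℂ Λ) (s : ℂ) :
    analyticOrderNatAt (xi N Λ) s = analyticOrderNatAt Λ s := by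
  have hN0 : (N : ℂ) ≠ 0 := by
    have : (0:ℝ) < N := by linarith
    exact_mod_cast this.ne'
  have hE : Differentiable ℂ fun z : ℂ => (N : ℂ) ^ (z / 2) := fun z =>
    (((hasDerivAt_id z).div_const 2).const_cpow (c := (N : ℂ)) (Or.inl hN0)).differentiableAt
  have h1 := mult_mul (hΛ.analyticAt s) (hE.analyticAt s) (g := fun z : ℂ => (N : ℂ) ^ (z / 2)) (by
    simp [hN0])
  have e : xi N Λ = fun z => Λ z * (N : ℂ) ^ (z / 2) := by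
    funext z
    unfold xi
    ring
  rw [e]
  exact h1

/-- **walls**, for L-functions -/
theorem datum_walls (m : ℕ) (hm : 1 ≤ m) {θ : ℝ} (hθ0 : 0 ≤ θ) (hθ1 : θ ≤ 1 / 2) (R ρ η : ℝ) (hρ : 0 < ρ) (hη : 0 < η) :
    ∃ δ C₀ : ℝ, 0 < δ ∧ 1 < C₀ ∧ ∀ (N : ℝ) (μ : Fin m → ℂ) (α : Fin m → ℕ → ℂ) (ε : ℂ) (Λ : ℂ → ℂ), DatumT θ N μ α ε Λ →
      (∀ s : ℂ, 1 < s.re → Λ s ≠ 0) → ∀ y : ℝ, C₀ ≤ cond N μ y →
      ∀ S : Set ℂ, S ⊆ closedBall (1 / 2 + (y : ℂ) * I) R → IsPreconnected S →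
      (∀ p ∈ S, Few Λ ρ (δ * Real.log (cond N μ y)) p) → (∃ z₁ ∈ S, 1 ≤ z₁.re) → ∀ z ∈ S,
      1 / 2 < z.re ∧ ‖Lf μ Λ z‖ ≤ cond N μ y ^ η ∧
        ‖xi N Λ z‖ ≤ Mb N μ y * Real.exp (1 / 2 * Real.log (cond N μ y) * (z.re - 1 / 2) + η * (1 / 2 * Real.log (cond N μ y))) := by
  obtain ⟨K, HK⟩ := datum_base m hm hθ0 hθ1
  obtain ⟨C, hC, HC⟩ := lf_size m hm hθ0 hθ1 R
  obtain ⟨δ, ℓ₀, hδ, hℓ₀, HW⟩ := walls 2 K R (min ρ 1) η (by positivity) (min_le_right _ _) hη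
  refine ⟨δ / 2, Real.exp (2 * ℓ₀ + 2 * Real.log C / η), by positivity, ?_, fun N μ α ε Λ d hzf y hy S hSR hSc hfew hz₁ z hz => ?_⟩
  · apply Real.one_lt_exp_iff.mpr
    have : 0 ≤ 2 * Real.log C / η := by
      have := Real.log_nonneg hC
      positivity
    linarith
  have B := HK N μ α ε Λ d y
  have hN := d.one_le
  have hcond := cond_one hN μ y
  have hcond0 : 0 < cond N μ y := by linarith
  obtain ⟨L, hL⟩ : ∃ L : ℝ, L = Real.log (cond N μ y) := ⟨_, rfl⟩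
  have hL1 : 2 * ℓ₀ + 2 * Real.log C / η ≤ L := by
    rw [hL, Real.le_log_iff_exp_le hcond0]; exact hy
  have hCη : 0 ≤ 2 * Real.log C / η := by
    have := Real.log_nonneg hC
    positivity
  have h1 := HW (xi N Λ) (Mb N μ y) (1 / 2 * Real.log (cond N μ y)) y B (by rw [← hL]; linarith) 1 (by norm_num)
    (fun s hs h0 => hzf s hs ((xi_zero hN Λ s).mp h0)) S hSR hSc (fun p hp T hT => by
      have h2 := hfew p hp T (fun s hs => by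
        obtain ⟨k1, k2⟩ := hT s hs
        exact ⟨(xi_zero hN Λ s).mp k1, k2.trans (min_le_left _ _)⟩)
      have e : δ / 2 * Real.log (cond N μ y) = δ * (1 / 2 * Real.log (cond N μ y)) := by ring
      rw [e] at h2
      refine le_trans (le_of_eq ?_) h2
      refine Finset.sum_congr rfl fun s _ => ?_
      rw [mult_xi hN d.entire]) hz₁ z hz
  refine ⟨h1.1, ?_, h1.2⟩
  have hzR : ‖z - (1 / 2 + (y : ℂ) * I)‖ ≤ R := by
    have := hSR hz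
    rwa [mem_closedBall, dist_eq_norm] at this
  have h3 := HC N μ α ε Λ d y z h1.1.le hzR
  have hM := B.hM
  rw [← hL] at h1 h3
  have h4 : ‖Lf μ Λ z‖ * (Mb N μ y * Real.exp (1 / 2 * L * (z.re - 1 / 2))) ≤
      (C * Real.exp (η * (1 / 2 * L))) * (Mb N μ y * Real.exp (1 / 2 * L * (z.re - 1 / 2))) := by
    calc ‖Lf μ Λ z‖ * (Mb N μ y * Real.exp (1 / 2 * L * (z.re - 1 / 2))) ≤ C * ‖xi N Λ z‖ := h3
      _ ≤ C * (Mb N μ y * Real.exp (1 / 2 * L * (z.re - 1 / 2) + η * (1 / 2 * L))) := by gcongr; exact h1.2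
      _ = _ := by rw [Real.exp_add]; ring
  have h5 := le_of_mul_le_mul_right h4 (by positivity)
  refine h5.trans ?_
  rw [Real.rpow_def_of_pos hcond0, ← hL]
  calc C * Real.exp (η * (1 / 2 * L)) = Real.exp (Real.log C + η * (1 / 2 * L)) := by
        rw [Real.exp_add, Real.exp_log (by linarith)]
    _ ≤ _ := by
        apply Real.exp_le_exp.mpr
        have h6 : 2 * Real.log C / η ≤ L := by linarith
        rw [div_le_iff₀ hη] at h6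
        linarith

end Pool.Agent.H572.WL
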