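import Pool.Agent.H572.WL.Dat

/-!
# Families of L-functions
-/

set_option autoImplicit false

open Set Filter Topology Metric Complex
open scoped ComplexConjugate

namespace Pool.Agent.H572.WL

open H370 H370.Loc Pool.Agent.H487.NZ Pool.Agent.H487.GL Pool.Agent.H487.NB H353.E H353.F

/-- the point `1/2 + κ + iy` can be joined to the edge -/
def Free (Λ : ℂ → ℂ) (y κ R ρ B : ℝ) : Prop :=
  ∃ S : Set ℂ, S ⊆ closedBall (1 / 2 + (y : ℂ) * I) R ∧ IsPreconnected S ∧ 1 / 2 + (κ : ℂ) + (y : ℂ) * I ∈ S ∧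
    (∃ z ∈ S, 1 ≤ z.re) ∧ ∀ p ∈ S, Few Λ ρ B p

/-- **the local law for large values at the critical line** -/
theorem loc_free (m : ℕ) (hm : 1 ≤ m) {θ : ℝ} (hθ0 : 0 ≤ θ) (hθ1 : θ ≤ 1 / 2) {e : ℝ} (he : 0 < e) :
    ∃ κ A : ℝ, 0 < κ ∧ κ < 1 / 2 ∧ 0 < A ∧ ∀ R ρ : ℝ, 0 < ρ → ∃ δ C₀ : ℝ, 0 < δ ∧ 1 < C₀ ∧
      ∀ (N : ℝ) (μ : Fin m → ℂ) (α : Fin m → ℕ → ℂ) (ε : ℂ) (Λ : ℂ → ℂ), DatumT θ N μ α ε Λ →
      (∀ s : ℂ, 1 < s.re → Λ s ≠ 0) → ∀ y : ℝ, C₀ ≤ cond N μ y →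
      (∀ v : ℝ, |v| ≤ A → Free Λ (y + v) κ R ρ (δ * Real.log (cond N μ y))) →
      ‖Lf μ Λ (1 / 2 + (y : ℝ) * I)‖ ≤ (cond N μ y) ^ e := by
  have hm' : (1 : ℝ) ≤ m := by exact_mod_cast hm
  obtain ⟨K, HK⟩ := datum_base m hm hθ0 hθ1
  obtain ⟨κ, hκ⟩ : ∃ κ : ℝ, κ = min (1 / 4) e := ⟨_, rfl⟩
  have hκ0 : 0 < κ := by rw [hκ]; positivity
  have hκ1 : κ ≤ 1 / 4 := by rw [hκ]; exact min_le_left _ _
  have hκe : κ ≤ e := by rw [hκ]; exact min_le_right _ _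
  obtain ⟨η, hη⟩ : ∃ η : ℝ, η = κ / 12 := ⟨_, rfl⟩
  have hη0 : 0 < η := by rw [hη]; positivity
  obtain ⟨A, ℓ₁, hA, hℓ₁, H1⟩ := center 2 K κ (2 * η) hκ0 (by linarith) (by positivity)
  refine ⟨κ, A, hκ0, by linarith, hA, fun R ρ hρ => ?_⟩
  obtain ⟨δ, C₁, hδ, hC₁, H3⟩ := datum_walls m hm hθ0 hθ1 R ρ η hρ hη0
  obtain ⟨E, hE⟩ : ∃ E : ℝ, E = m * A + |K| * (10 + A ^ 2) + (κ + η) * (m * A) := ⟨_, rfl⟩
  have hE0 : 0 ≤ E := by rw [hE]; positivity
  obtain ⟨Q, hQ⟩ : ∃ Q : ℝ, Q = 2 * (m * A) + |Real.log C₁| + 2 * ℓ₁ + 2 * E / η := ⟨_, rfl⟩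
  have hEη : 0 ≤ 2 * E / η := by positivity
  have hmA : 0 < (m : ℝ) * A := by positivity
  have hQ0 : 0 < Q := by rw [hQ]; positivity
  refine ⟨δ / 2, Real.exp Q, by positivity, Real.one_lt_exp_iff.mpr hQ0, fun N μ α ε Λ dI hz y hQL' H4 => ?_⟩
  have hN := dI.one_le
  have hc1 := cond_one hN μ y
  have hc0 : 0 < cond N μ y := by linarith
  have B := HK N μ α ε Λ dI y
  have hK := B.hK
  have hKK : |K| = K := abs_of_pos (by linarith)
  rw [hKK] at hE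
  have hM := B.hM
  obtain ⟨L, hL⟩ : ∃ L : ℝ, L = Real.log (cond N μ y) := ⟨_, rfl⟩
  have hL0 : 0 ≤ L := by rw [hL]; exact Real.log_nonneg hc1
  have hQL : Q ≤ L := by rw [hL, Real.le_log_iff_exp_le hc0]; exact hQL'
  have hlf := mb_lf hN dI.re_le Λ y
  have habs := abs_nonneg (Real.log C₁)
  have hline : ∀ v : ℝ, |v| ≤ A → ‖xi N Λ (pt y κ v)‖ ≤ Mb N μ y * Real.exp (1 / 2 * L * κ + 2 * η * (1 / 2 * L)) := by
    intro v hv
    have hcv1 := cond_one hN μ (y + v)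
    have hcv0 : 0 < cond N μ (y + v) := by linarith
    obtain ⟨Lv, hLv⟩ : ∃ Lv : ℝ, Lv = Real.log (cond N μ (y + v)) := ⟨_, rfl⟩
    have s1 := cond_shift hN μ y (y + v)
    have s2 := cond_shift hN μ (y + v) y
    rw [← hL, ← hLv, show y + v - y = v by ring] at s1
    rw [← hL, ← hLv, show y - (y + v) = -v by ring, abs_neg] at s2
    have hmv : (m : ℝ) * |v| ≤ m * A := by gcongr
    have hLv1 : Real.log C₁ ≤ Lv := by
      have := le_abs_self (Real.log C₁)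
      rw [hQ] at hQL
      linarith
    have hcvC₁ : C₁ ≤ cond N μ (y + v) := by
      rw [hLv] at hLv1
      exact (Real.log_le_log_iff (by linarith) hcv0).1 hLv1
    obtain ⟨S, hS1, hS2, hS3, hS4, hS5⟩ := H4 v hv
    have hLLv : L ≤ 2 * Lv := by
      rw [hQ] at hQL
      linarith
    have hS5' : ∀ p ∈ S, Few Λ ρ (δ * Real.log (cond N μ (y + v))) p := fun p hp T hT => by
      refine (hS5 p hp T hT).trans ?_
      rw [← hL, ← hLv]
      nlinarith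
    have k1 := (H3 N μ α ε Λ dI hz (y + v) hcvC₁ S hS1 hS2 hS5' hS4 _ hS3).2.2
    rw [← hLv] at k1
    have e1 : (1 / 2 + (κ : ℂ) + ((y + v : ℝ) : ℂ) * I) = pt y κ v := by
      apply Complex.ext <;> simp
    have e2 : (pt y κ v).re - 1 / 2 = κ := by simp
    rw [e1, e2] at k1
    -- compare the normalizations
    have Bv := HK N μ α ε Λ dI (y + v)
    have j1 := Bv.lo 2 0 le_rfl
    have j2 := B.up 2 v
    have e3 : pt (y + v) 2 0 = pt y 2 v := by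
      apply Complex.ext <;> simp
    rw [e3] at j1
    rw [abs_of_pos (by norm_num : (0:ℝ) < 2), max_self] at j2
    rw [← hLv] at j1
    rw [← hL] at j2
    have hv2 : v ^ 2 ≤ A ^ 2 := by rw [← sq_abs]; exact pow_le_pow_left₀ (abs_nonneg _) hv 2
    have j3 : Mb N μ (y + v) ≤ Mb N μ y * Real.exp (m * A + K * (10 + A ^ 2)) := by
      have j4 := j1.trans j2
      have j5 : Mb N μ (y + v) * Real.exp (1 / 2 * Lv * 2 - K * (1 + 2 ^ 2 + 0 ^ 2)) ≤
          (Mb N μ y * Real.exp (m * A + K * (10 + A ^ 2))) * Real.exp (1 / 2 * Lv * 2 - K * (1 + 2 ^ 2 + 0 ^ 2)) := by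
        refine j4.trans ?_
        rw [mul_assoc (Mb N μ y), ← Real.exp_add]
        refine mul_le_mul_of_nonneg_left (Real.exp_le_exp.mpr ?_) hM.le
        have : K * v ^ 2 ≤ K * A ^ 2 := by gcongr
        linarith
      exact le_of_mul_le_mul_right j5 (Real.exp_pos _)
    refine k1.trans ?_
    calc Mb N μ (y + v) * Real.exp (1 / 2 * Lv * κ + η * (1 / 2 * Lv))
        ≤ (Mb N μ y * Real.exp (m * A + K * (10 + A ^ 2))) * Real.exp (1 / 2 * Lv * κ + η * (1 / 2 * Lv)) := by gcongr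
      _ = Mb N μ y * Real.exp ((m * A + K * (10 + A ^ 2)) + (1 / 2 * Lv * κ + η * (1 / 2 * Lv))) := by
          rw [Real.exp_add (m * A + K * (10 + A ^ 2))]; ring
      _ ≤ _ := by
          refine mul_le_mul_of_nonneg_left (Real.exp_le_exp.mpr ?_) hM.le
          have t1 : 2 * E ≤ η * L := by
            have : 2 * E / η ≤ L := by
              rw [hQ] at hQL
              linarith
            rw [div_le_iff₀ hη0] at this
            linarith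
          have t2 : Lv ≤ L + m * A := by linarith
          have t3 : (κ + η) * Lv ≤ (κ + η) * (L + m * A) := by gcongr
          have t4 : 0 ≤ (κ + η) * (m * A) := by positivity
          rw [hE] at t1
          nlinarith
  have k2 := H1 (xi N Λ) (Mb N μ y) (1 / 2 * L) y (by rw [hL]; exact B) (by
    rw [hQ] at hQL
    linarith) (by linarith) hline
  have k3 : ‖Lf μ Λ (1 / 2 + y * I)‖ * Mb N μ y ≤ Real.exp (e * L) * Mb N μ y := by
    refine hlf.trans (k2.trans ?_)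
    rw [mul_comm]
    refine mul_le_mul_of_nonneg_right (Real.exp_le_exp.mpr ?_) hM.le
    have : κ * L ≤ e * L := by gcongr
    rw [hη]
    nlinarith
  have k4 := le_of_mul_le_mul_right k3 hM
  rw [Real.rpow_def_of_pos hc0, ← hL, mul_comm L e]
  exact k4

/-- the trivial bound -/
lemma loc_triv (m : ℕ) (hm : 1 ≤ m) {θ : ℝ} (hθ0 : 0 ≤ θ) (hθ1 : θ ≤ 1 / 2) (C : ℝ) :
    ∃ B : ℝ, 1 ≤ B ∧ ∀ (N : ℝ) (μ : Fin m → ℂ) (α : Fin m → ℕ → ℂ) (ε : ℂ) (Λ : ℂ → ℂ), DatumT θ N μ α ε Λ →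
      ∀ y : ℝ, cond N μ y ≤ C → ‖Lf μ Λ (1 / 2 + (y : ℝ) * I)‖ ≤ B := by
  obtain ⟨K, HK⟩ := datum_base m hm hθ0 hθ1
  refine ⟨max 1 (Real.exp (Real.log C + |K|)), le_max_left _ _, fun N μ α ε Λ d y hC => ?_⟩
  have hN := d.one_le
  have hc1 := cond_one hN μ y
  have hc0 : 0 < cond N μ y := by linarith
  have B := HK N μ α ε Λ d y
  have hM := B.hM
  have hlf := mb_lf hN d.re_le Λ y
  have h1 := B.up 0 0
  rw [abs_zero, max_eq_right (by norm_num : (0:ℝ) ≤ 2)] at h1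
  have ept : pt y 0 0 = 1 / 2 + (y : ℂ) * I := by
    apply Complex.ext <;> simp
  rw [ept] at h1
  have k3 : ‖Lf μ Λ (1 / 2 + y * I)‖ * Mb N μ y ≤ Real.exp (Real.log C + |K|) * Mb N μ y := by
    refine hlf.trans (h1.trans ?_)
    rw [mul_comm]
    refine mul_le_mul_of_nonneg_right (Real.exp_le_exp.mpr ?_) hM.le
    have h2 : Real.log (cond N μ y) ≤ Real.log C := Real.log_le_log hc0 hC
    have h3 := le_abs_self K
    linarith
  exact (le_of_mul_le_mul_right k3 hM).trans (le_max_right _ _)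

variable {ι : Type*} {m : ℕ} {θ : ℝ} {N : ι → ℝ} {μ : ι → Fin m → ℂ} {α : ι → Fin m → ℕ → ℂ} {ε : ι → ℂ} {Λ : ι → ℂ → ℂ}
  {Y : ι → ℝ}

lemma Free.mono {Λ : ℂ → ℂ} {y κ R ρ B B' : ℝ} (h : Free Λ y κ R ρ B) (hB : B ≤ B') : Free Λ y κ R ρ B' := by
  obtain ⟨S, h1, h2, h3, h4, h5⟩ := h
  exact ⟨S, h1, h2, h3, h4, fun p hp T hT => (h5 p hp T hT).trans hB⟩

/-- **no enclosures ⟹ Lindelöf** -/
theorem fam_free (hm : 1 ≤ m) (hθ0 : 0 ≤ θ) (hθ1 : θ ≤ 1 / 2) (d : ∀ i, DatumT θ (N i) (μ i) (α i) (ε i) (Λ i))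
    (hz : ∀ i, ∀ s : ℂ, 1 < s.re → Λ i s ≠ 0)
    (H : ∀ κ A : ℝ, 0 < κ → κ < 1 / 2 → 0 < A → ∃ R ρ : ℝ, 0 < ρ ∧ ∀ δ : ℝ, 0 < δ → ∃ C₀ : ℝ, ∀ i, C₀ ≤ cond (N i) (μ i) (Y i) →
      ∀ v : ℝ, |v| ≤ A → Free (Λ i) (Y i + v) κ R ρ (δ * Real.log (cond (N i) (μ i) (Y i)))) {e A : ℝ} (he : 0 < e) (hA : 0 < A) :
    ∃ B : ℝ, ∀ i, ∀ v : ℝ, |v| ≤ A → ‖Lf (μ i) (Λ i) (1 / 2 + ((Y i + v : ℝ) : ℂ) * I)‖ ≤ B * (cond (N i) (μ i) (Y i)) ^ e := by
  obtain ⟨κ, A₁, hκ0, hκ1, hA₁, H1⟩ := loc_free m hm hθ0 hθ1 he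
  obtain ⟨R, ρ, hρ, H2⟩ := H κ (A + A₁) hκ0 hκ1 (by positivity)
  obtain ⟨δ, C₁, hδ, hC₁, H3⟩ := H1 R ρ hρ
  obtain ⟨C₂, H4⟩ := H2 (δ / 2) (by positivity)
  have hmA : 0 ≤ (m : ℝ) * A := by positivity
  obtain ⟨C, hC⟩ : ∃ C : ℝ, C = Real.exp (2 * (m * A) + |Real.log C₁| + |Real.log C₂|) := ⟨_, rfl⟩
  obtain ⟨B, hB, H5⟩ := loc_triv m hm hθ0 hθ1 (C * Real.exp (m * A))
  refine ⟨max B (Real.exp (e * (m * A))), fun i v hv => ?_⟩
  have dI := d i
  have hN := dI.one_le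
  have hc1 := cond_one hN (μ i) (Y i)
  have hc0 : 0 < cond (N i) (μ i) (Y i) := by linarith
  have hcv1 := cond_one hN (μ i) (Y i + v)
  have hcv0 : 0 < cond (N i) (μ i) (Y i + v) := by linarith
  obtain ⟨L, hL⟩ : ∃ L : ℝ, L = Real.log (cond (N i) (μ i) (Y i)) := ⟨_, rfl⟩
  have hce : cond (N i) (μ i) (Y i) = Real.exp L := by rw [hL, Real.exp_log hc0]
  obtain ⟨Lv, hLv⟩ : ∃ Lv : ℝ, Lv = Real.log (cond (N i) (μ i) (Y i + v)) := ⟨_, rfl⟩
  have hcev : cond (N i) (μ i) (Y i + v) = Real.exp Lv := by rw [hLv, Real.exp_log hcv0]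
  have s1 := cond_shift hN (μ i) (Y i) (Y i + v)
  have s2 := cond_shift hN (μ i) (Y i + v) (Y i)
  rw [← hL, ← hLv, show Y i + v - Y i = v by ring] at s1
  rw [← hL, ← hLv, show Y i - (Y i + v) = -v by ring, abs_neg] at s2
  have hmv : (m : ℝ) * |v| ≤ m * A := by gcongr
  have hce1 : 1 ≤ cond (N i) (μ i) (Y i) ^ e := Real.one_le_rpow hc1 he.le
  rcases le_or_gt C (cond (N i) (μ i) (Y i)) with hCC | hCC
  · have hCL : 2 * (m * A) + |Real.log C₁| + |Real.log C₂| ≤ L := by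
      rw [hC, hce] at hCC
      exact Real.exp_le_exp.mp hCC
    have q1 := le_abs_self (Real.log C₁)
    have q2 := le_abs_self (Real.log C₂)
    have q3 := abs_nonneg (Real.log C₁)
    have q4 := abs_nonneg (Real.log C₂)
    have r1 : C₁ ≤ cond (N i) (μ i) (Y i + v) := by
      have : Real.log C₁ ≤ Real.log (cond (N i) (μ i) (Y i + v)) := by rw [← hLv]; linarith
      exact (Real.log_le_log_iff (by linarith) hcv0).1 this
    have r2 : C₂ ≤ cond (N i) (μ i) (Y i) := by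
      rcases le_or_gt C₂ 0 with h | h
      · linarith
      · have : Real.log C₂ ≤ Real.log (cond (N i) (μ i) (Y i)) := by rw [← hL]; linarith
        exact (Real.log_le_log_iff h hc0).1 this
    have k := H3 (N i) (μ i) (α i) (ε i) (Λ i) dI (hz i) (Y i + v) r1 (fun w hw => by
      have h1 := H4 i r2 (v + w) ((abs_add_le v w).trans (by linarith))
      rw [← add_assoc] at h1
      refine h1.mono ?_
      rw [← hL, ← hLv]
      have : L ≤ 2 * Lv := by linarith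
      nlinarith)
    refine k.trans ?_
    rw [Real.rpow_def_of_pos hcv0, ← hLv]
    calc Real.exp (Lv * e) ≤ Real.exp (e * (m * A) + L * e) := by
          refine Real.exp_le_exp.mpr ?_
          have : Lv * e ≤ (L + m * A) * e := by gcongr; linarith
          linarith
      _ = Real.exp (e * (m * A)) * cond (N i) (μ i) (Y i) ^ e := by
          rw [Real.exp_add, Real.rpow_def_of_pos hc0, ← hL]
      _ ≤ _ := by gcongr; exact le_max_right _ _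
  · have h1 := H5 (N i) (μ i) (α i) (ε i) (Λ i) dI (Y i + v) (by
      rw [hcev]
      have hLC : L ≤ Real.log C := by
        rw [hL]
        exact Real.log_le_log hc0 hCC.le
      have hC0 : 0 < C := by rw [hC]; positivity
      calc Real.exp Lv ≤ Real.exp (Real.log C + m * A) := Real.exp_le_exp.mpr (by linarith)
        _ = _ := by rw [Real.exp_add, Real.exp_log hC0])
    calc ‖Lf (μ i) (Λ i) (1 / 2 + ((Y i + v : ℝ) : ℂ) * I)‖ ≤ B := h1
      _ ≤ max B (Real.exp (e * (m * A))) * 1 := by rw [mul_one]; exact le_max_left _ _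
      _ ≤ _ := by gcongr

/-- **Lindelöf ⟹ few zeros to the right** -/
theorem fam_few_right₁ (hm : 1 ≤ m) (hθ0 : 0 ≤ θ) (hθ1 : θ ≤ 1 / 2) (d : ∀ i, DatumT θ (N i) (μ i) (α i) (ε i) (Λ i))
    (G : ∀ e A : ℝ, 0 < e → 0 < A → ∃ B : ℝ, ∀ i, ∀ v : ℝ, |v| ≤ A →
      ‖Lf (μ i) (Λ i) (1 / 2 + ((Y i + v : ℝ) : ℂ) * I)‖ ≤ B * (cond (N i) (μ i) (Y i)) ^ e)
    {κ η : ℝ} (hκ : 0 < κ) (hη : 0 < η) :
    ∃ C₀ : ℝ, ∀ i, C₀ ≤ cond (N i) (μ i) (Y i) → ∀ T : Finset ℂ,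
      (∀ s ∈ T, 1 / 2 + κ ≤ s.re ∧ |s.im - Y i| ≤ 1 ∧ Λ i s = 0) →
        ∑ s ∈ T, (analyticOrderNatAt (Λ i) s : ℝ) ≤ η * Real.log (cond (N i) (μ i) (Y i)) := by
  have hm' : (1 : ℝ) ≤ m := by exact_mod_cast hm
  obtain ⟨K, HK⟩ := datum_base m hm hθ0 hθ1
  obtain ⟨κ', hκ'⟩ : ∃ κ' : ℝ, κ' = min κ (1 / 2) := ⟨_, rfl⟩
  have hκ'0 : 0 < κ' := by rw [hκ']; positivity
  obtain ⟨A, δ₁, L1, hA, hδ₁, hL1, H1⟩ := few_right 2 K κ' η hκ'0 (by rw [hκ']; exact min_le_right _ _) hη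
  obtain ⟨A', δ₂, L2, hA', hδ₂, hL2, H2⟩ := lin_of_line m (max K 1) A δ₁ (le_max_right _ _) hA.le hδ₁
  obtain ⟨B₀, hB₀⟩ := G (δ₂ / 8) A' (by positivity) hA'
  obtain ⟨b, hb⟩ : ∃ b : ℝ, b = max B₀ 1 := ⟨_, rfl⟩
  have hb1 : 1 ≤ b := by rw [hb]; exact le_max_right _ _
  have hBb : B₀ ≤ b := by rw [hb]; exact le_max_left _ _
  have hlogb : 0 ≤ Real.log b := Real.log_nonneg hb1
  have hpi := Real.pi_pos
  obtain ⟨E, hE⟩ : ∃ E : ℝ, E = (2 * Real.pi) ^ m * Real.exp (6 * m * A') := ⟨_, rfl⟩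
  have hE1 : 1 ≤ E := by
    have h1 : 1 ≤ (2 * Real.pi) ^ m := one_le_pow₀ (by linarith [Real.pi_gt_three])
    have h2 : 1 ≤ Real.exp (6 * m * A') := Real.one_le_exp (by positivity)
    rw [hE]
    exact one_le_mul_of_one_le_of_one_le h1 h2
  have hlogE : 0 ≤ Real.log E := Real.log_nonneg hE1
  obtain ⟨Q, hQ⟩ : ∃ Q : ℝ, Q = 2 * L1 + 2 * L2 + m * A' + 4 * (Real.log E + Real.log b) / δ₂ := ⟨_, rfl⟩
  refine ⟨Real.exp Q, fun i hC T hT => ?_⟩
  obtain ⟨y, hy⟩ : ∃ y : ℝ, y = Y i := ⟨_, rfl⟩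
  rw [← hy] at hC hT ⊢
  have dI := d i
  have hN := dI.one_le
  have hc1 := cond_one hN (μ i) y
  have hc0 : 0 < cond (N i) (μ i) y := by linarith
  have B := HK (N i) (μ i) (α i) (ε i) (Λ i) dI y
  obtain ⟨L, hL⟩ : ∃ L : ℝ, L = Real.log (cond (N i) (μ i) y) := ⟨_, rfl⟩
  have hQL : Q ≤ L := by
    rw [hL, Real.le_log_iff_exp_le hc0]; exact hC
  have hEb : 0 ≤ 4 * (Real.log E + Real.log b) / δ₂ := by positivity
  have hmA' : 0 ≤ (m : ℝ) * A' := by positivity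
  have hQ' := hQ
  rw [hQ] at hQL
  have hL0 : 0 < L := by linarith
  have hB : Base (xi (N i) (Λ i)) 2 (max K 1) (Mb (N i) (μ i) y) (1 / 2 * L) y := by
    rw [max_eq_left B.hK, hL]
    exact B
  have hLin := H2 (xi (N i) (Λ i)) (Mb (N i) (μ i) y) (1 / 2 * L) y hB (by linarith) (μ i) dI.re_le (fun v hv => by
    have h1 := line_of_lf hm hN dI.re_le (Λ i) y v (B₀ * cond (N i) (μ i) y ^ (δ₂ / 8)) (by
      have := hB₀ i v hv
      rwa [← hy] at this)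
    refine h1.trans ?_
    refine mul_le_mul_of_nonneg_left ?_ (mul_nonneg B.hM.le (Finset.prod_nonneg fun j _ => by positivity))
    have h2 : (2 * Real.pi) ^ m * Real.exp (6 * m * |v|) ≤ E := by
      rw [hE]
      gcongr
    have h3 : B₀ * cond (N i) (μ i) y ^ (δ₂ / 8) ≤ b * Real.exp (δ₂ / 8 * (L + m * A')) := by
      rw [Real.rpow_def_of_pos (by linarith), ← hL]
      have h4 : L * (δ₂ / 8) ≤ δ₂ / 8 * (L + m * A') := by
        rw [mul_comm]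
        gcongr
        linarith
      calc B₀ * Real.exp (L * (δ₂ / 8)) ≤ b * Real.exp (L * (δ₂ / 8)) := by
            exact mul_le_mul_of_nonneg_right hBb (Real.exp_pos _).le
        _ ≤ _ := by gcongr
    have h5 : 0 ≤ B₀ * cond (N i) (μ i) y ^ (δ₂ / 8) := by
      rw [hy]
      exact (norm_nonneg _).trans (hB₀ i v hv)
    calc (2 * Real.pi) ^ m * Real.exp (6 * m * |v|) * (B₀ * cond (N i) (μ i) y ^ (δ₂ / 8))
        ≤ E * (b * Real.exp (δ₂ / 8 * (L + m * A'))) := mul_le_mul h2 h3 h5 (by linarith)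
      _ = Real.exp (Real.log E + Real.log b + δ₂ / 8 * (L + m * A')) := by
          rw [Real.exp_add, Real.exp_add, Real.exp_log (by linarith), Real.exp_log (by linarith)]; ring
      _ ≤ _ := by
        refine Real.exp_le_exp.mpr ?_
        have h6 : 4 * (Real.log E + Real.log b) / δ₂ ≤ L := by linarith
        rw [div_le_iff₀ hδ₂] at h6
        have h7 : δ₂ / 8 * (L + m * A') ≤ δ₂ / 8 * (2 * L) := by
          have : (m : ℝ) * A' ≤ L := by linarith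
          gcongr
          linarith
        linarith)
  have h1 := H1 (xi (N i) (Λ i)) (Mb (N i) (μ i) y) (1 / 2 * L) y (by rw [hL]; exact B) (by linarith) hLin T (fun s hs => by
    obtain ⟨k1, k2, k3⟩ := hT s hs
    refine ⟨le_trans ?_ k1, k2, (xi_zero hN (Λ i) s).mpr k3⟩
    have : κ' ≤ κ := by rw [hκ']; exact min_le_left _ _
    linarith)
  rw [← hL]
  have h2 : ∑ s ∈ T, (analyticOrderNatAt (Λ i) s : ℝ) = ∑ s ∈ T, (mult (xi (N i) (Λ i)) s : ℝ) :=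
    Finset.sum_congr rfl fun s _ => by rw [← mult_xi hN dI.entire]; rfl
  rw [h2]
  refine h1.trans ?_
  have : 0 ≤ η * L := by positivity
  linarith

/-- **Lindelöf ⟹ few zeros to the right** -/
theorem fam_few_right (hm : 1 ≤ m) (hθ0 : 0 ≤ θ) (hθ1 : θ ≤ 1 / 2) (d : ∀ i, DatumT θ (N i) (μ i) (α i) (ε i) (Λ i))
    (G : ∀ e A : ℝ, 0 < e → 0 < A → ∃ B : ℝ, ∀ i, ∀ v : ℝ, |v| ≤ A →
      ‖Lf (μ i) (Λ i) (1 / 2 + ((Y i + v : ℝ) : ℂ) * I)‖ ≤ B * (cond (N i) (μ i) (Y i)) ^ e)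
    {κ η : ℝ} (hκ : 0 < κ) (hη : 0 < η) (A : ℝ) :
    ∃ C₀ : ℝ, ∀ i, C₀ ≤ cond (N i) (μ i) (Y i) → ∀ T : Finset ℂ,
      (∀ s ∈ T, 1 / 2 + κ ≤ s.re ∧ |s.im - Y i| ≤ A ∧ Λ i s = 0) →
        ∑ s ∈ T, (analyticOrderNatAt (Λ i) s : ℝ) ≤ η * Real.log (cond (N i) (μ i) (Y i)) := by
  classical
  obtain ⟨k, hk⟩ := exists_nat_ge |A|
  have hk0 : (0:ℝ) < 2 * k + 1 := by positivity
  -- unit windows centred at `Y i + j`, `|j| ≤ k`
  have key : ∀ j : ℤ, ∃ C₀ : ℝ, ∀ i, C₀ ≤ cond (N i) (μ i) (Y i) → ∀ T : Finset ℂ,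
      (∀ s ∈ T, 1 / 2 + κ ≤ s.re ∧ |s.im - (Y i + j)| ≤ 1 ∧ Λ i s = 0) →
        ∑ s ∈ T, (analyticOrderNatAt (Λ i) s : ℝ) ≤ (η / (2 * k + 1)) * Real.log (cond (N i) (μ i) (Y i)) := by
    intro j
    have hmj : 0 ≤ (m : ℝ) * |(j : ℝ)| := by positivity
    obtain ⟨C₁, H1⟩ := fam_few_right₁ (Y := fun i => Y i + j) hm hθ0 hθ1 d (fun e A he hA => by
      obtain ⟨B, hB⟩ := G e (A + |(j : ℝ)|) he (by positivity)
      refine ⟨|B| * Real.exp (e * (m * |(j : ℝ)|)), fun i v hv => ?_⟩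
      have dI := d i
      have hN := dI.one_le
      have hc1 := cond_one hN (μ i) (Y i)
      have hc0 : 0 < cond (N i) (μ i) (Y i) := by linarith
      have hcv1 := cond_one hN (μ i) (Y i + j)
      have hcv0 : 0 < cond (N i) (μ i) (Y i + j) := by linarith
      have s1 := cond_shift hN (μ i) (Y i + j) (Y i)
      rw [show Y i - (Y i + j) = -(j : ℝ) by ring, abs_neg] at s1
      have h1 := hB i (j + v) ((abs_add_le _ _).trans (by linarith))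
      rw [← add_assoc] at h1
      refine h1.trans ?_
      have h2 : cond (N i) (μ i) (Y i) ^ e ≤ Real.exp (e * (m * |(j : ℝ)|)) * cond (N i) (μ i) (Y i + j) ^ e := by
        rw [Real.rpow_def_of_pos hc0, Real.rpow_def_of_pos hcv0, ← Real.exp_add]
        refine Real.exp_le_exp.mpr ?_
        nlinarith
      calc B * cond (N i) (μ i) (Y i) ^ e ≤ |B| * cond (N i) (μ i) (Y i) ^ e := by
            refine mul_le_mul_of_nonneg_right (le_abs_self B) (by positivity)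
        _ ≤ |B| * (Real.exp (e * (m * |(j : ℝ)|)) * cond (N i) (μ i) (Y i + j) ^ e) := by gcongr
        _ = _ := by ring) hκ (η := η / (2 * (2 * k + 1))) (by positivity)
    refine ⟨Real.exp (|Real.log C₁| + m * |(j : ℝ)|), fun i hC T hT => ?_⟩
    have dI := d i
    have hN := dI.one_le
    have hc1 := cond_one hN (μ i) (Y i)
    have hc0 : 0 < cond (N i) (μ i) (Y i) := by linarith
    have hcv1 := cond_one hN (μ i) (Y i + j)
    have hcv0 : 0 < cond (N i) (μ i) (Y i + j) := by linarith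
    have s1 := cond_shift hN (μ i) (Y i + j) (Y i)
    have s2 := cond_shift hN (μ i) (Y i) (Y i + j)
    rw [show Y i - (Y i + j) = -(j : ℝ) by ring, abs_neg] at s1
    rw [show Y i + j - Y i = (j : ℝ) by ring] at s2
    have hCL : |Real.log C₁| + m * |(j : ℝ)| ≤ Real.log (cond (N i) (μ i) (Y i)) := by
      rw [Real.le_log_iff_exp_le hc0]; exact hC
    have q1 := le_abs_self (Real.log C₁)
    have q2 := abs_nonneg (Real.log C₁)
    have r1 : C₁ ≤ cond (N i) (μ i) (Y i + j) := by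
      rcases le_or_gt C₁ 0 with h | h
      · linarith
      · have : Real.log C₁ ≤ Real.log (cond (N i) (μ i) (Y i + j)) := by linarith
        exact (Real.log_le_log_iff h hcv0).1 this
    refine (H1 i r1 T hT).trans ?_
    have h3 : Real.log (cond (N i) (μ i) (Y i + j)) ≤ 2 * Real.log (cond (N i) (μ i) (Y i)) := by linarith
    calc η / (2 * (2 * k + 1)) * Real.log (cond (N i) (μ i) (Y i + j))
        ≤ η / (2 * (2 * k + 1)) * (2 * Real.log (cond (N i) (μ i) (Y i))) := by gcongr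
      _ = _ := by field_simp
  choose C₀ HC using key
  obtain ⟨D, hD⟩ : ∃ D : ℝ, ∀ j ∈ Finset.Icc (-(k:ℤ)) k, C₀ j ≤ D := by
    obtain ⟨D, hD⟩ := ((Finset.Icc (-(k:ℤ)) k).image C₀).bddAbove
    exact ⟨D, fun j hj => hD (Finset.mem_coe.mpr (Finset.mem_image_of_mem _ hj))⟩
  refine ⟨D, fun i hC T hT => ?_⟩
  have hmaps : ∀ s ∈ T, round (s.im - Y i) ∈ Finset.Icc (-(k:ℤ)) k := by
    intro s hs
    obtain ⟨h1, h2, h3⟩ := hT s hs
    have h4 := abs_sub_round (s.im - Y i)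
    have h5 : |((round (s.im - Y i) : ℤ) : ℝ)| ≤ k + 1 / 2 := by
      have h6 : ((round (s.im - Y i) : ℤ) : ℝ) = (s.im - Y i) - ((s.im - Y i) - round (s.im - Y i)) := by ring
      rw [h6]
      have := abs_sub (s.im - Y i) ((s.im - Y i) - round (s.im - Y i))
      have := le_abs_self A
      linarith
    have h7 : |round (s.im - Y i)| < (k : ℤ) + 1 := by
      have : |((round (s.im - Y i) : ℤ) : ℝ)| < k + 1 := by linarith
      exact_mod_cast this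
    rw [Finset.mem_Icc]
    exact abs_le.mp (by omega)
  calc ∑ s ∈ T, (analyticOrderNatAt (Λ i) s : ℝ)
      = ∑ j ∈ Finset.Icc (-(k:ℤ)) k, ∑ s ∈ T with round (s.im - Y i) = j, (analyticOrderNatAt (Λ i) s : ℝ) :=
        (Finset.sum_fiberwise_of_maps_to hmaps _).symm
    _ ≤ ∑ j ∈ Finset.Icc (-(k:ℤ)) k, (η / (2 * k + 1)) * Real.log (cond (N i) (μ i) (Y i)) := by
        refine Finset.sum_le_sum fun j hj => ?_
        refine HC j i ((hD j hj).trans hC) _ fun s hs => ?_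
        rw [Finset.mem_filter] at hs
        obtain ⟨h1, h2, h3⟩ := hT s hs.1
        refine ⟨h1, ?_, h3⟩
        have h4 := abs_sub_round (s.im - Y i)
        rw [hs.2] at h4
        rw [show s.im - (Y i + (j : ℤ)) = s.im - Y i - (j : ℤ) by ring]
        linarith
    _ = _ := by
        rw [Finset.sum_const, Int.card_Icc, nsmul_eq_mul]
        have : (((k:ℤ) + 1 - -(k:ℤ)).toNat : ℝ) = 2 * k + 1 := by
          have h : ((k:ℤ) + 1 - -(k:ℤ)).toNat = 2 * k + 1 := by omega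
          rw [h]; push_cast; ring
        rw [this]
        field_simp

/-- **few zeros to the right ⟹ no enclosures**, even with horizontal segments -/
theorem fam_right_free (hm : 1 ≤ m) (d : ∀ i, DatumT θ (N i) (μ i) (α i) (ε i) (Λ i))
    {κ A : ℝ} (hκ : 0 < κ) (hκ1 : κ < 1 / 2) (hA : 0 < A) {δ C₀ : ℝ} (hF : ∀ i, C₀ ≤ cond (N i) (μ i) (Y i) → ∀ T : Finset ℂ,
      (∀ s ∈ T, 1 / 2 + κ / 2 ≤ s.re ∧ |s.im - Y i| ≤ A + 1 ∧ Λ i s = 0) →
        ∑ s ∈ T, (analyticOrderNatAt (Λ i) s : ℝ) ≤ δ * Real.log (cond (N i) (μ i) (Y i))) :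
    ∀ i, C₀ ≤ cond (N i) (μ i) (Y i) → ∀ v : ℝ, |v| ≤ A →
      ∀ p : ℂ, 1 / 2 + κ ≤ p.re → p.im = Y i + v → Few (Λ i) (κ / 2) (δ * Real.log (cond (N i) (μ i) (Y i))) p := by
  intro i hC v hv p hp1 hp2 T hT
  refine hF i hC T fun s hs => ?_
  obtain ⟨h1, h2⟩ := hT s hs
  have h3 := (Complex.abs_re_le_norm (s - p)).trans h2
  have h4 := (Complex.abs_im_le_norm (s - p)).trans h2
  rw [Complex.sub_re] at h3
  rw [Complex.sub_im, hp2] at h4
  refine ⟨?_, ?_, h1⟩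
  · have := (abs_le.mp h3).1
    linarith
  · have h5 : s.im - Y i = (s.im - (Y i + v)) + v := by ring
    rw [h5]
    refine (abs_add_le _ _).trans ?_
    linarith

end Pool.Agent.H572.WL
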