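import Pool.Agent.H572.WL.Core3
import Pool.Agent.H487.GL.LinOf
import Pool.Agent.H487.GL.Datum

/-!
# From the line `Re s = 1/2 + κ` to the critical line, zeros from size, and the L-function
-/

set_option autoImplicit false

open Set Filter Topology Metric Complex
open scoped ComplexConjugate

namespace Pool.Agent.H572.WL

open H370 H370.Loc Pool.Agent.H487.NZ Pool.Agent.H487.GL Pool.Agent.H487.NB H353.E H353.F

/-- from the lines `Re s = 1/2 ± κ` to the critical line -/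
theorem center (a K κ η : ℝ) (hκ : 0 < κ) (hκ1 : κ ≤ 1) (hη : 0 < η) :
    ∃ A ℓ₀ : ℝ, 0 < A ∧ 1 ≤ ℓ₀ ∧ ∀ (X : ℂ → ℂ) (M ℓ y : ℝ), Base X a K M ℓ y → ℓ₀ ≤ ℓ → κ ≤ a →
      (∀ v : ℝ, |v| ≤ A → ‖X (pt y κ v)‖ ≤ M * Real.exp (ℓ * κ + η * ℓ)) →
      ‖X (1 / 2 + (y : ℂ) * I)‖ ≤ M * Real.exp (ℓ * κ + 3 * η * ℓ) := by
  obtain ⟨A, hA⟩ : ∃ A : ℝ, A = 2 * |a| / η + 1 := ⟨_, rfl⟩
  have hA1 : 1 ≤ A := by
    rw [hA]
    have : 0 ≤ 2 * |a| / η := by positivity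
    linarith
  have hAa : 2 * |a| ≤ η * A ^ 2 := by
    have h1 : 2 * |a| ≤ η * A := by
      rw [hA, mul_add, mul_div_cancel₀ _ hη.ne']
      linarith
    have h2 : A ≤ A ^ 2 := le_self_pow₀ hA1 two_ne_zero
    have h3 := mul_le_mul_of_nonneg_left h2 hη.le
    linarith
  refine ⟨A, max 1 (2 * |K| / η), by linarith, le_max_left _ _, fun X M ℓ y B hℓ hκa hX => ?_⟩
  have hℓ1 : 1 ≤ ℓ := (le_max_left _ _).trans hℓ
  have hℓ0 : 0 < ℓ := by linarith
  have hK := B.hK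
  have hM := B.hM
  have hKK : |K| = K := abs_of_pos (by linarith)
  have ha := B.ha
  have haa : |a| = a := abs_of_pos ha
  rw [haa] at hAa
  have hℓK : 2 * K ≤ η * ℓ := by
    have := (le_max_right _ _).trans hℓ
    rw [hKK, div_le_iff₀ hη] at this
    linarith
  have hκ2 : κ ^ 2 ≤ 1 := pow_le_one₀ hκ.le hκ1
  set f : ℂ → ℂ := fun z => X (1 / 2 + (y : ℂ) * I + z) * Complex.exp (((η * ℓ : ℝ) : ℂ) * z ^ 2) with hf
  have hpt : ∀ z : ℂ, 1 / 2 + (y : ℂ) * I + z = pt y z.re z.im := by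
    intro z
    apply Complex.ext <;> simp
  have hfn : ∀ z : ℂ, ‖f z‖ = ‖X (pt y z.re z.im)‖ * Real.exp (η * ℓ * (z.re ^ 2 - z.im ^ 2)) := by
    intro z
    simp only [hf]
    rw [norm_mul, Complex.norm_exp, hpt]
    congr 2
    rw [Complex.re_ofReal_mul]
    congr 1
    rw [sq, Complex.mul_re]
    ring
  have hfd : Differentiable ℂ f := (B.diff.comp (by fun_prop)).mul (by fun_prop)
  -- everywhere in the strip
  have hall : ∀ z : ℂ, |z.re| ≤ κ → ‖f z‖ ≤ M * Real.exp (ℓ * a + η * ℓ + η * ℓ * κ ^ 2 - η * ℓ / 2 * z.im ^ 2) := by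
    intro z hz
    rw [hfn]
    have h1 := B.up z.re z.im
    rw [max_eq_right (hz.trans hκa)] at h1
    calc ‖X (pt y z.re z.im)‖ * Real.exp (η * ℓ * (z.re ^ 2 - z.im ^ 2))
        ≤ (M * Real.exp (ℓ * a + K * (1 + z.re ^ 2 + z.im ^ 2))) * Real.exp (η * ℓ * (z.re ^ 2 - z.im ^ 2)) := by gcongr
      _ = M * Real.exp (ℓ * a + K * (1 + z.re ^ 2 + z.im ^ 2) + η * ℓ * (z.re ^ 2 - z.im ^ 2)) := by
          rw [Real.exp_add _ (η * ℓ * (z.re ^ 2 - z.im ^ 2))]; ring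
      _ ≤ _ := by
          refine mul_le_mul_of_nonneg_left (Real.exp_le_exp.mpr ?_) hM.le
          have h2 : z.re ^ 2 ≤ κ ^ 2 := by rw [← sq_abs]; exact pow_le_pow_left₀ (abs_nonneg _) hz 2
          have h3 : K * (1 + z.re ^ 2) ≤ η * ℓ := by
            calc K * (1 + z.re ^ 2) ≤ K * 2 := by gcongr; linarith
              _ ≤ _ := by linarith
          have h4 : K * z.im ^ 2 ≤ η * ℓ / 2 * z.im ^ 2 := by gcongr; linarith
          have h5 : η * ℓ * z.re ^ 2 ≤ η * ℓ * κ ^ 2 := by gcongr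
          linarith
  -- the edges
  have hedge : ∀ z : ℂ, |z.re| = κ → ‖f z‖ ≤ M * Real.exp (ℓ * κ + 3 * η * ℓ) := by
    intro z hz
    rcases le_or_gt |z.im| A with h | h
    · have h1 : ‖X (pt y z.re z.im)‖ ≤ M * Real.exp (ℓ * κ + η * ℓ) := by
        rcases abs_eq hκ.le |>.1 hz with h2 | h2
        · rw [h2]; exact hX _ h
        · rw [h2, ← fe_norm B]
          have : 1 - conj (pt y (-κ) z.im) = pt y κ z.im := by
            apply Complex.ext <;> simp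
            ring
          rw [this]
          exact hX _ h
      rw [hfn]
      calc ‖X (pt y z.re z.im)‖ * Real.exp (η * ℓ * (z.re ^ 2 - z.im ^ 2))
          ≤ (M * Real.exp (ℓ * κ + η * ℓ)) * Real.exp (η * ℓ * (1 - 0)) := by
            gcongr
            · rw [← sq_abs, hz]; exact hκ2
            · positivity
        _ = M * Real.exp ((ℓ * κ + η * ℓ) + η * ℓ * (1 - 0)) := by rw [Real.exp_add (ℓ * κ + η * ℓ)]; ring
        _ ≤ _ := by
            refine mul_le_mul_of_nonneg_left (Real.exp_le_exp.mpr ?_) hM.le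
            have : 0 ≤ η * ℓ := by positivity
            linarith
    · refine (hall z hz.le).trans (mul_le_mul_of_nonneg_left (Real.exp_le_exp.mpr ?_) hM.le)
      have h1 : A ^ 2 ≤ z.im ^ 2 := by rw [← sq_abs z.im]; exact pow_le_pow_left₀ (by linarith) h.le 2
      have h2 : ℓ * a ≤ η * ℓ / 2 * z.im ^ 2 := by
        calc ℓ * a = ℓ / 2 * (2 * a) := by ring
          _ ≤ ℓ / 2 * (η * A ^ 2) := by gcongr
          _ ≤ ℓ / 2 * (η * z.im ^ 2) := by gcongr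
          _ = _ := by ring
      have h3 : η * ℓ * κ ^ 2 ≤ η * ℓ * 1 := by gcongr
      have h4 : 0 ≤ ℓ * κ := by positivity
      linarith
  have key := PhragmenLindelof.vertical_strip (f := f) (a := -κ) (b := κ) (C := M * Real.exp (ℓ * κ + 3 * η * ℓ)) (z := 0)
    hfd.diffContOnCl ⟨0, by rw [sub_neg_eq_add]; positivity, 0, by
      refine Asymptotics.IsBigO.of_bound (M * Real.exp (ℓ * a + η * ℓ + η * ℓ * κ ^ 2)) ?_
      refine Filter.eventually_of_mem (Filter.mem_inf_of_right (Filter.mem_principal_self _)) fun z hz => ?_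
      simp only [zero_mul, Real.exp_zero, norm_one, mul_one]
      have hz' : |z.re| ≤ κ := by
        rw [mem_preimage, mem_Ioo] at hz
        rw [abs_le]
        exact ⟨hz.1.le, hz.2.le⟩
      refine (hall z hz').trans (mul_le_mul_of_nonneg_left (Real.exp_le_exp.mpr ?_) hM.le)
      have : 0 ≤ η * ℓ / 2 * z.im ^ 2 := by positivity
      linarith⟩
    (fun z hz => hedge z (by rw [hz, abs_neg, abs_of_pos hκ])) (fun z hz => hedge z (by rw [hz, abs_of_pos hκ]))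
    (by simp; linarith) (by simp; linarith)
  have e : ‖f 0‖ = ‖X (1 / 2 + (y : ℂ) * I)‖ := by
    simp [hf]
  rwa [e] at key

/-- few zeros to the right, from the size -/
theorem few_right (a K κ η : ℝ) (hκ : 0 < κ) (hκ1 : κ ≤ 1 / 2) (hη : 0 < η) :
    ∃ A δ ℓ₀ : ℝ, 0 < A ∧ 0 < δ ∧ 1 ≤ ℓ₀ ∧ ∀ (X : ℂ → ℂ) (M ℓ y : ℝ), Base X a K M ℓ y → ℓ₀ ≤ ℓ → Lin X a M ℓ y δ A →
      ∀ T : Finset ℂ, (∀ s ∈ T, 1 / 2 + κ ≤ s.re ∧ |s.im - y| ≤ 1 ∧ X s = 0) → ∑ s ∈ T, (mult X s : ℝ) ≤ η * ℓ := by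
  obtain ⟨U, hU⟩ : ∃ U : ℝ, U = 2 / κ + |a| := ⟨_, rfl⟩
  have hUκ : 2 ≤ κ * U := by
    rw [hU, mul_add, mul_div_cancel₀ _ hκ.ne']
    have : 0 ≤ κ * |a| := by positivity
    linarith
  have hUa : a ≤ U := by
    rw [hU]
    have : 0 ≤ 2 / κ := by positivity
    linarith [le_abs_self a]
  have hU1 : 4 ≤ U := by
    have h1 : 4 ≤ 2 / κ := by rw [le_div_iff₀ hκ]; linarith
    rw [hU]
    linarith [abs_nonneg a]
  have hr0 : 0 < U - κ / 2 := by linarith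
  obtain ⟨q, hq⟩ : ∃ q : ℝ, q = Real.log ((U - κ / 4) / (U - κ / 2)) := ⟨_, rfl⟩
  have hq0 : 0 < q := by rw [hq]; exact Real.log_pos ((one_lt_div hr0).2 (by linarith))
  obtain ⟨K₁, hK₁⟩ : ∃ K₁ : ℝ, K₁ = |K| * (1 + (2 * U) ^ 2 + U ^ 2) + |K| * (1 + U ^ 2 + 0 ^ 2) := ⟨_, rfl⟩
  refine ⟨U, η * q / 2, max 1 (2 * K₁ / (η * q)), by linarith, by positivity, le_max_left _ _,
    fun X M ℓ y B hℓ hLin T hT => ?_⟩
  have hℓ1 : 1 ≤ ℓ := (le_max_left _ _).trans hℓ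
  have hℓ0 : 0 < ℓ := by linarith
  have hK := B.hK
  have hM := B.hM
  have hKK : |K| = K := abs_of_pos (by linarith)
  rw [hKK] at hK₁
  have hℓK : 2 * K₁ ≤ η * q * ℓ := by
    have := (le_max_right _ _).trans hℓ
    rw [div_le_iff₀ (by positivity)] at this
    linarith
  set c : ℂ := pt y U 0 with hc
  have hMc : ((M⁻¹ : ℝ) : ℂ) ≠ 0 := by exact_mod_cast (by positivity : M⁻¹ ≠ 0)
  set E : ℂ → ℂ := fun z => Complex.exp (-((ℓ : ℂ) * (z - (1 / 2 + (y : ℂ) * I)))) * ((M⁻¹ : ℝ) : ℂ) with hE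
  have hEd : Differentiable ℂ E := by fun_prop
  have hE0 : ∀ z, E z ≠ 0 := fun z => mul_ne_zero (Complex.exp_ne_zero _) hMc
  have hEn : ∀ z : ℂ, ‖E z‖ = Real.exp (-(ℓ * (z.re - 1 / 2))) * M⁻¹ := by
    intro z
    simp only [hE]
    rw [norm_mul, Complex.norm_exp, Complex.norm_real, Real.norm_of_nonneg (by positivity)]
    congr 2
    simp
  have hFn : ∀ z : ℂ, |z.im - y| ≤ U → κ / 4 ≤ z.re - 1 / 2 → |z.re - 1 / 2| ≤ 2 * U →
      ‖X z * E z‖ ≤ Real.exp (η * q / 2 * ℓ + K * (1 + (2 * U) ^ 2 + U ^ 2)) := by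
    intro z h1 h2 h3
    rw [norm_mul, hEn]
    have h4 := Lin.all B hLin (by positivity) (u := z.re - 1 / 2) h1
    rw [← pt_eq, abs_of_nonneg (by linarith)] at h4
    calc ‖X z‖ * (Real.exp (-(ℓ * (z.re - 1 / 2))) * M⁻¹)
        ≤ (M * Real.exp (ℓ * (z.re - 1 / 2) + η * q / 2 * ℓ + K * (1 + (z.re - 1 / 2) ^ 2 + (z.im - y) ^ 2))) *
          (Real.exp (-(ℓ * (z.re - 1 / 2))) * M⁻¹) := by gcongr
      _ = (M * M⁻¹) * (Real.exp (ℓ * (z.re - 1 / 2) + η * q / 2 * ℓ + K * (1 + (z.re - 1 / 2) ^ 2 + (z.im - y) ^ 2)) *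
          Real.exp (-(ℓ * (z.re - 1 / 2)))) := by ring
      _ = Real.exp (η * q / 2 * ℓ + K * (1 + (z.re - 1 / 2) ^ 2 + (z.im - y) ^ 2)) := by
          rw [mul_inv_cancel₀ hM.ne', one_mul, ← Real.exp_add]
          congr 1; ring
      _ ≤ _ := by
          apply Real.exp_le_exp.mpr
          have h5 : (z.re - 1 / 2) ^ 2 ≤ (2 * U) ^ 2 := by rw [← sq_abs]; exact pow_le_pow_left₀ (abs_nonneg _) h3 2
          have h6 : (z.im - y) ^ 2 ≤ U ^ 2 := by rw [← sq_abs]; exact pow_le_pow_left₀ (abs_nonneg _) h1 2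
          have : K * (1 + (z.re - 1 / 2) ^ 2 + (z.im - y) ^ 2) ≤ K * (1 + (2 * U) ^ 2 + U ^ 2) := by
            apply mul_le_mul_of_nonneg_left _ (by linarith)
            linarith
          linarith
  have hcre : c.re = 1 / 2 + U := by simp [hc]
  have hcim : c.im = y := by simp [hc]
  have hFc : Real.exp (-(K * (1 + U ^ 2 + 0 ^ 2))) ≤ ‖X c * E c‖ := by
    rw [norm_mul, hEn, hcre]
    have h1 := B.lo U 0 hUa
    calc Real.exp (-(K * (1 + U ^ 2 + 0 ^ 2))) = (M * M⁻¹) * Real.exp (-(K * (1 + U ^ 2 + 0 ^ 2))) := by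
          rw [mul_inv_cancel₀ hM.ne', one_mul]
      _ = (M * Real.exp (ℓ * U - K * (1 + U ^ 2 + 0 ^ 2))) * (Real.exp (-(ℓ * (1 / 2 + U - 1 / 2))) * M⁻¹) := by
          have : Real.exp (ℓ * U - K * (1 + U ^ 2 + 0 ^ 2)) * Real.exp (-(ℓ * (1 / 2 + U - 1 / 2))) =
              Real.exp (-(K * (1 + U ^ 2 + 0 ^ 2))) := by rw [← Real.exp_add]; congr 1; ring
          rw [← this]; ring
      _ ≤ _ := by gcongr
  have hFc0 : X c * E c ≠ 0 := by
    intro h
    rw [h, norm_zero] at hFc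
    exact absurd (Real.exp_pos _) (not_lt.2 hFc)
  have hball : ∀ z ∈ closedBall c (U - κ / 4), |z.im - y| ≤ U ∧ κ / 4 ≤ z.re - 1 / 2 ∧ |z.re - 1 / 2| ≤ 2 * U := by
    intro z hz
    rw [mem_closedBall, dist_eq_norm] at hz
    have h1 := abs_le.1 (re_near hz)
    have h2 := abs_le.1 (im_near hz)
    rw [hcre] at h1
    rw [hcim] at h2
    refine ⟨abs_le.2 ⟨by linarith, by linarith⟩, by linarith, abs_le.2 ⟨by linarith, by linarith⟩⟩
  have hexp1 : 1 ≤ Real.exp (η * q / 2 * ℓ + K * (1 + (2 * U) ^ 2 + U ^ 2)) := Real.one_le_exp (by positivity)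
  have key := jensen_mult (f := fun z => X z * E z) (c := c) (r := U - κ / 2) (R := U - κ / 4) hr0 (by linarith) hexp1
    (fun z _ => (B.diff.mul hEd).analyticAt z) hFc0 (fun z hz => by
      obtain ⟨h1, h2, h3⟩ := hball z hz
      exact hFn z h1 h2 h3) T (fun z hz => by
      obtain ⟨h1, h2, h3⟩ := hT z hz
      have h4 : z.re < 1 / 2 + a := by
        by_contra hcon
        push Not at hcon
        exact B.ne hcon h3
      rw [mem_closedBall, dist_eq_norm, Complex.norm_eq_sqrt_sq_add_sq]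
      rw [show U - κ / 2 = Real.sqrt ((U - κ / 2) ^ 2) from (Real.sqrt_sq hr0.le).symm]
      apply Real.sqrt_le_sqrt
      rw [Complex.sub_re, Complex.sub_im, hcre, hcim]
      have h5 : (z.im - y) ^ 2 ≤ 1 := by rw [← sq_abs]; exact pow_le_one₀ (abs_nonneg _) h2
      have h6 : (z.re - (1 / 2 + U)) ^ 2 ≤ (U - κ) ^ 2 := by
        rw [← sq_abs, abs_of_nonpos (by linarith)]
        exact pow_le_pow_left₀ (by linarith) (by linarith) 2
      nlinarith)
  have hmult : ∀ z, mult (fun z => X z * E z) z = mult X z := fun z =>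
    mult_mul (B.diff.analyticAt z) (hEd.analyticAt z) (hE0 z)
  simp only [hmult] at key
  refine key.trans ?_
  rw [← hq, div_le_iff₀ hq0, Real.log_div (Real.exp_pos _).ne' (norm_ne_zero_iff.2 hFc0), Real.log_exp]
  have h1 : -(K * (1 + U ^ 2 + 0 ^ 2)) ≤ Real.log ‖X c * E c‖ := by
    rw [Real.le_log_iff_exp_le (norm_pos_iff.2 hFc0)]
    exact hFc
  linarith

end Pool.Agent.H572.WL
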